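import Pool.Agent.Lib.MP_5949a1_co_h34.Loss

/-!
# The uniform asymptotic lower bound
-/

set_option autoImplicit false
set_option linter.unusedSectionVars false

namespace Pool.Agent.MP_5949a1

open Finset

lemma six_choose (k : ℕ) : k ^ 3 ≤ 6 * (k + 2).choose 3 := by
  have h1 : (k + 2).choose 2 * k = (k + 2).choose 3 * 3 := by
    have := Nat.choose_succ_right_eq (k + 2) 2
    rw [Nat.add_sub_cancel] at this
    exact this.symm
  have h2 : 2 * (k + 2).choose 2 = (k + 2) * (k + 1) := two_mul_choose_two (k + 1)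
  have h3 : 6 * (k + 2).choose 3 = (k + 2) * (k + 1) * k := by
    rw [← h2]
    linarith
  rw [h3]
  nlinarith [Nat.zero_le (k ^ 2), Nat.zero_le k]

variable {G : Type*} [AddCommGroup G] [Fintype G] [DecidableEq G]

/-- descent to a pair whose binomial coefficient is comparable with `L` -/
lemma reduce (L : ℕ) (hL : 2 ≤ L) {m : ℕ} : ∀ h : ℕ, 1 ≤ h → h ≤ m → m ≤ Fintype.card G →
    L ≤ m.choose h → ∃ M H : ℕ, H ≤ M ∧ M ≤ m ∧ L ≤ M.choose H ∧ M.choose H < 2 * L ∧
      nuHat G M H ≤ nuHat G m h := by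
  induction m with
  | zero => intro h h1 h2; omega
  | succ m ih =>
    intro h hh hm hmn hC
    by_cases h1 : L ≤ m.choose h
    · have h2 : h ≤ m := by
        by_contra hcon
        rw [Nat.choose_eq_zero_of_lt (by omega)] at h1
        omega
      obtain ⟨M, H, a1, a2, a3, a4, a5⟩ := ih h hh h2 (by omega) h1
      exact ⟨M, H, a1, by omega, a3, a4, a5.trans (nuHat_mono_left h hmn)⟩
    by_cases h2 : L ≤ m.choose (h - 1)
    · have h3 : 1 ≤ h - 1 := by
        by_contra hcon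
        have h0 : h - 1 = 0 := by omega
        rw [h0, Nat.choose_zero_right] at h2
        omega
      have h4 := nuHat_mono_both (G := G) (m := m) (h - 1) hmn
      rw [Nat.sub_add_cancel hh] at h4
      obtain ⟨M, H, a1, a2, a3, a4, a5⟩ := ih (h - 1) h3 (by omega) (by omega) h2
      exact ⟨M, H, a1, by omega, a3, a4, a5.trans h4⟩
    push Not at h1 h2
    refine ⟨m + 1, h, hm, le_rfl, hC, ?_, le_rfl⟩
    obtain ⟨j, rfl⟩ := Nat.exists_eq_add_of_le' hh
    rw [Nat.choose_succ_succ']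
    rw [Nat.add_sub_cancel] at h2
    omega

/-- the bound for `C(M,H) ≤ 2 K n`, with explicit parameters -/
lemma core (K T : ℕ) (δ : ℝ) (hK : 1 ≤ K) (hT : 192 * K ≤ T) (hTn : T ^ 3 ≤ Fintype.card G)
    (hδ : 0 < δ) (h1 : 1 ≤ δ * (T : ℝ)) (h2 : 768 * (K : ℝ) ^ 2 ≤ δ * (T : ℝ))
    (M H : ℕ) (hHM : H ≤ M) (hM : M ≤ Fintype.card G)
    (hC : M.choose H ≤ 2 * (K * Fintype.card G)) :
    (Fintype.card G : ℝ) * (1 - Real.exp (-((M.choose H : ℝ) / (Fintype.card G : ℝ))) - δ) ≤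
      (nuHat G M H : ℝ) := by
  have hn := card_pos_real (G := G)
  have hT1 : 192 ≤ T := by omega
  have hν : (0 : ℝ) ≤ (nuHat G M H : ℝ) := Nat.cast_nonneg _
  -- the number `k1`
  have hex : ∃ k : ℕ, 12 * (K * Fintype.card G) < k ^ 3 := by
    refine ⟨12 * (K * Fintype.card G) + 1, ?_⟩
    calc 12 * (K * Fintype.card G) < 12 * (K * Fintype.card G) + 1 := Nat.lt_succ_self _
      _ ≤ (12 * (K * Fintype.card G) + 1) ^ 3 := Nat.le_self_pow (by norm_num) _
  classical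
  obtain ⟨k1, hk1, hk1min⟩ : ∃ k : ℕ, 12 * (K * Fintype.card G) < k ^ 3 ∧
      ∀ j < k, ¬ (12 * (K * Fintype.card G) < j ^ 3) :=
    ⟨Nat.find hex, Nat.find_spec hex, fun j hj => Nat.find_min hex hj⟩
  have hKn : Fintype.card G ≤ K * Fintype.card G := Nat.le_mul_of_pos_left _ hK
  have hTk : T < k1 := by
    by_contra hcon
    push Not at hcon
    have : k1 ^ 3 ≤ T ^ 3 := Nat.pow_le_pow_left hcon 3
    omega
  obtain ⟨d, hd⟩ := Nat.exists_eq_add_of_le' (show 1 ≤ k1 by omega)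
  have hd3 : d ^ 3 ≤ 12 * (K * Fintype.card G) := by
    have := hk1min d (by omega)
    omega
  have hd1 : 1 ≤ d := by omega
  have hk3 : k1 ^ 3 ≤ 96 * (K * Fintype.card G) := by
    have h3 : k1 ^ 3 ≤ (2 * d) ^ 3 := Nat.pow_le_pow_left (by omega) 3
    have h4 : (2 * d) ^ 3 = 8 * d ^ 3 := by ring
    omega
  have hk2 : k1 ^ 2 * T ≤ 96 * (K * Fintype.card G) := by
    calc k1 ^ 2 * T ≤ k1 ^ 2 * k1 := Nat.mul_le_mul_left _ hTk.le
      _ = k1 ^ 3 := by ring
      _ ≤ _ := hk3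
  have hkk : k1 ≤ k1 ^ 2 := Nat.le_self_pow (by norm_num) _
  -- `2 k1 ≤ n`
  have hhalf : 2 * k1 ≤ Fintype.card G := by
    have h3 : T * (2 * k1) ≤ T * Fintype.card G := by
      calc T * (2 * k1) ≤ T * (2 * k1 ^ 2) := Nat.mul_le_mul_left _ (by omega)
        _ = 2 * (k1 ^ 2 * T) := by ring
        _ ≤ 2 * (96 * (K * Fintype.card G)) := Nat.mul_le_mul_left _ hk2
        _ = (192 * K) * Fintype.card G := by ring
        _ ≤ T * Fintype.card G := Nat.mul_le_mul_right _ hT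
    exact Nat.le_of_mul_le_mul_left h3 (by omega)
  have hchoose : M.choose H < (k1 + 2).choose 3 := by
    have := six_choose k1
    omega
  rcases bound_loss (G := G) M H k1 hHM hM (by omega) hchoose with hs | hb
  · -- almost everything is covered
    obtain ⟨k, hk0, -, hkc, hkν⟩ := hs
    have hkT : T < k := by
      by_contra hcon
      push Not at hcon
      have h3 : (k + 1).choose 2 ≤ (T + 1).choose 2 := Nat.choose_le_choose _ (by omega)
      have h4 : 2 * (T + 1).choose 2 = (T + 1) * T := two_mul_choose_two T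
      have h5 : (T + 1) * T ≤ 2 * T ^ 3 := by
        have h6 : T + 1 ≤ 2 * T ^ 2 := by nlinarith
        calc (T + 1) * T ≤ (2 * T ^ 2) * T := Nat.mul_le_mul_right _ h6
          _ = _ := by ring
      omega
    have hkpos : (0 : ℝ) < (k : ℝ) := by exact_mod_cast (show 0 < k by omega)
    have hkT' : (T : ℝ) ≤ (k : ℝ) := by exact_mod_cast hkT.le
    have h3 : (Fintype.card G : ℝ) * ((k : ℝ) - 1) ≤ (k : ℝ) * (nuHat G M H : ℝ) := by
      have h4 : ((Fintype.card G * (k - 1) : ℕ) : ℝ) ≤ ((k * nuHat G M H : ℕ) : ℝ) := by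
        exact_mod_cast hkν
      rw [Nat.cast_mul, Nat.cast_mul, Nat.cast_sub hk0, Nat.cast_one] at h4
      exact h4
    have h4 : (1 : ℝ) ≤ δ * k := h1.trans (mul_le_mul_of_nonneg_left hkT' hδ.le)
    have h5 : (k : ℝ) * ((Fintype.card G : ℝ) * (1 - δ)) ≤ (k : ℝ) * (nuHat G M H : ℝ) := by
      refine le_trans ?_ h3
      have h6 : (Fintype.card G : ℝ) * 1 ≤ (Fintype.card G : ℝ) * (δ * k) :=
        mul_le_mul_of_nonneg_left h4 hn.le
      linarith
    have h6 := le_of_mul_le_mul_left h5 hkpos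
    have h7 : 0 ≤ (Fintype.card G : ℝ) *
        Real.exp (-((M.choose H : ℝ) / (Fintype.card G : ℝ))) :=
      mul_nonneg hn.le (Real.exp_pos _).le
    linarith
  · set κ := (M.choose H : ℝ) / (Fintype.card G : ℝ) with hκ
    set lam := (k1 : ℝ) / ((Fintype.card G : ℝ) - (k1 : ℝ)) * κ * ((k1 : ℝ) + 1) with hlam
    have hκ0 : 0 ≤ κ := by positivity
    have hκK : κ ≤ 2 * (K : ℝ) := by
      rw [hκ, div_le_iff₀ hn]
      have h3 : (M.choose H : ℝ) ≤ 2 * ((K : ℝ) * (Fintype.card G : ℝ)) := by exact_mod_cast hC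
      linarith
    have hhalf' : 2 * (k1 : ℝ) ≤ (Fintype.card G : ℝ) := by exact_mod_cast hhalf
    have hk1pos : (1 : ℝ) ≤ (k1 : ℝ) := by exact_mod_cast (show 1 ≤ k1 by omega)
    have hpos : 0 < (Fintype.card G : ℝ) - (k1 : ℝ) := by linarith
    have hTpos : (0 : ℝ) < (T : ℝ) := by exact_mod_cast (show 0 < T by omega)
    have hKpos : (0 : ℝ) ≤ (K : ℝ) := Nat.cast_nonneg _
    have hk2' : (k1 : ℝ) ^ 2 * T ≤ 96 * ((K : ℝ) * (Fintype.card G : ℝ)) := by exact_mod_cast hk2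
    have hlam0 : 0 ≤ lam := by
      rw [hlam]
      exact mul_nonneg (mul_nonneg (div_nonneg (by linarith) hpos.le) hκ0) (by linarith)
    have hlamδ : lam ≤ δ := by
      -- `lam (n - k1) = k1 (k1+1) κ ≤ 4 K k1^2`
      have h3 : lam * ((Fintype.card G : ℝ) - (k1 : ℝ)) = (k1 : ℝ) * ((k1 : ℝ) + 1) * κ := by
        rw [hlam]; field_simp
      have h4 : (k1 : ℝ) * ((k1 : ℝ) + 1) * κ ≤ (2 * (k1 : ℝ) ^ 2) * (2 * (K : ℝ)) := by
        refine mul_le_mul ?_ hκK hκ0 (by positivity)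
        nlinarith
      have h5 : lam * (Fintype.card G : ℝ) ≤ 8 * (K : ℝ) * (k1 : ℝ) ^ 2 := by
        have h6 : lam * (Fintype.card G : ℝ) ≤ 2 * (lam * ((Fintype.card G : ℝ) - (k1 : ℝ))) := by
          have h7 : lam * (2 * (k1 : ℝ)) ≤ lam * (Fintype.card G : ℝ) :=
            mul_le_mul_of_nonneg_left hhalf' hlam0
          linarith
        rw [h3] at h6
        linarith
      have h8 : (Fintype.card G : ℝ) * (lam * T) ≤ (Fintype.card G : ℝ) * (δ * T) := by
        calc (Fintype.card G : ℝ) * (lam * T) = lam * (Fintype.card G : ℝ) * T := by ring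
          _ ≤ 8 * (K : ℝ) * (k1 : ℝ) ^ 2 * T := mul_le_mul_of_nonneg_right h5 hTpos.le
          _ = 8 * (K : ℝ) * ((k1 : ℝ) ^ 2 * T) := by ring
          _ ≤ 8 * (K : ℝ) * (96 * ((K : ℝ) * (Fintype.card G : ℝ))) :=
              mul_le_mul_of_nonneg_left hk2' (by positivity)
          _ = (Fintype.card G : ℝ) * (768 * (K : ℝ) ^ 2) := by ring
          _ ≤ _ := mul_le_mul_of_nonneg_left h2 hn.le
      exact le_of_mul_le_mul_right (le_of_mul_le_mul_left h8 hn) hTpos
    rcases le_total (-κ + lam) 0 with hneg | hpos2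
    · refine le_trans (mul_le_mul_of_nonneg_left ?_ hn.le) hb
      have h3 := Real.add_one_le_exp (-lam)
      have h4 : Real.exp (-κ) = Real.exp (-κ + lam) * Real.exp (-lam) := by
        rw [← Real.exp_add]; congr 1; ring
      have h5 : Real.exp (-κ + lam) ≤ 1 := Real.exp_le_one_iff.2 hneg
      have h6 : Real.exp (-κ + lam) * (-lam + 1) ≤ Real.exp (-κ) := by
        rw [h4]; exact mul_le_mul_of_nonneg_left h3 (Real.exp_pos _).le
      have h7 : Real.exp (-κ + lam) * lam ≤ 1 * lam := mul_le_mul_of_nonneg_right h5 hlam0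
      linarith
    · have h3 := Real.add_one_le_exp (-κ)
      have h4 : 1 - Real.exp (-κ) - δ ≤ 0 := by linarith
      exact (mul_nonpos_of_nonneg_of_nonpos hn.le h4).trans hν

/-- **Uniform asymptotic lower bound.** -/
theorem asym (ε : ℝ) (hε : 0 < ε) : ∃ N : ℕ, ∀ (n : ℕ) [NeZero n], N ≤ n → ∀ m h : ℕ,
    1 ≤ h → h ≤ m → m ≤ n →
    (n : ℝ) * (1 - Real.exp (-((m.choose h : ℝ) / (n : ℝ))) - ε) ≤ (nuHat (ZMod n) m h : ℝ) := by
  obtain ⟨K0, hK0⟩ := exists_nat_gt (2 / ε)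
  set K := K0 + 1 with hKdef
  have hKexp : Real.exp (-(K : ℝ)) ≤ ε / 2 := by
    have h1 : (K : ℝ) + 1 ≤ Real.exp (K : ℝ) := Real.add_one_le_exp _
    have h2 : (2 : ℝ) / ε ≤ Real.exp (K : ℝ) := by
      have : (K : ℝ) = (K0 : ℝ) + 1 := by rw [hKdef]; push_cast; ring
      linarith
    rw [Real.exp_neg, inv_le_comm₀ (Real.exp_pos _) (by positivity)]
    have h3 : (ε / 2)⁻¹ = 2 / ε := by rw [inv_div]
    rw [h3]; exact h2
  obtain ⟨T0, hT0⟩ := exists_nat_gt ((768 * (K : ℝ) ^ 2 + 1) / (ε / 2))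
  set T := T0 + 192 * K with hTdef
  have hT1 : 768 * (K : ℝ) ^ 2 + 1 ≤ ε / 2 * (T : ℝ) := by
    have h1 : (768 * (K : ℝ) ^ 2 + 1) / (ε / 2) ≤ (T : ℝ) := by
      have : (T : ℝ) = (T0 : ℝ) + 192 * (K : ℝ) := by rw [hTdef]; push_cast; ring
      have h2 : (0 : ℝ) ≤ (K : ℝ) := Nat.cast_nonneg _
      linarith
    rw [div_le_iff₀ (by positivity)] at h1
    linarith
  refine ⟨T ^ 3, fun n _ hn m h hh hhm hmn => ?_⟩
  have hc : Fintype.card (ZMod n) = n := ZMod.card n
  have hnpos : (0 : ℝ) < (n : ℝ) := by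
    have := card_pos_real (G := ZMod n)
    rwa [hc] at this
  have hcore : ∀ M H : ℕ, H ≤ M → M ≤ n → M.choose H ≤ 2 * (K * n) →
      (n : ℝ) * (1 - Real.exp (-((M.choose H : ℝ) / (n : ℝ))) - ε / 2) ≤
        (nuHat (ZMod n) M H : ℝ) := by
    intro M H h1 h2 h3
    have h4 : 0 ≤ (K : ℝ) ^ 2 := sq_nonneg _
    have := core (G := ZMod n) K T (ε / 2) (by omega) (by omega) (by rw [hc]; exact hn)
      (by positivity) (by linarith) (by linarith) M H h1 (by rw [hc]; exact h2)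
      (by rw [hc]; exact h3)
    rwa [hc] at this
  rcases Nat.lt_or_ge (2 * (K * n)) (m.choose h) with hC | hC
  · have hn2 : 2 ≤ K * n := by
      have h1 : 192 ≤ T := by omega
      have h2 : T ≤ T ^ 3 := Nat.le_self_pow (by norm_num) _
      have h3 : n ≤ K * n := Nat.le_mul_of_pos_left _ (by omega)
      omega
    obtain ⟨M, H, a1, a2, a3, a4, a5⟩ := reduce (G := ZMod n) (K * n) hn2 h hh hhm
      (by rw [hc]; exact hmn) (by omega)
    have h1 := hcore M H a1 (by omega) a4.le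
    have h2 : Real.exp (-((M.choose H : ℝ) / (n : ℝ))) ≤ ε / 2 := by
      refine le_trans (Real.exp_le_exp.2 ?_) hKexp
      have h3 : (K : ℝ) * (n : ℝ) ≤ (M.choose H : ℝ) := by exact_mod_cast a3
      rw [neg_le_neg_iff, le_div_iff₀ hnpos]
      exact h3
    have h3 : (nuHat (ZMod n) M H : ℝ) ≤ (nuHat (ZMod n) m h : ℝ) := by exact_mod_cast a5
    refine le_trans ?_ (h1.trans h3)
    refine mul_le_mul_of_nonneg_left ?_ hnpos.le
    have h4 := Real.exp_pos (-((m.choose h : ℝ) / (n : ℝ)))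
    linarith
  · refine le_trans (mul_le_mul_of_nonneg_left ?_ hnpos.le) (hcore m h hhm hmn hC)
    linarith

end Pool.Agent.MP_5949a1
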