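import Pool.Agent.Lib.MP_5949a1_co_h34.Count

/-!
# A potential that can be kept from increasing when elements are added one by one
-/

set_option autoImplicit false
set_option linter.unusedSectionVars false

namespace Pool.Agent.MP_5949a1

open Finset

/-- Averages of several non-negative functions: some point does at least as well as the averages
for a product of powers. -/
lemma exists_prod_le {α ι : Type*} (S : Finset α) (hS : S.Nonempty) (J : Finset ι)
    (f : ι → α → ℝ) (v : ι → ℝ) (w : ι → ℕ) (hf : ∀ j ∈ J, ∀ a ∈ S, 0 ≤ f j a)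
    (hv0 : ∀ j ∈ J, 0 ≤ v j)
    (hv : ∀ j ∈ J, w j ≠ 0 → ∑ a ∈ S, f j a ≤ (S.card : ℝ) * v j) :
    ∃ a ∈ S, ∏ j ∈ J, f j a ^ w j ≤ ∏ j ∈ J, v j ^ w j := by
  classical
  have hsum : ∑ a ∈ S, (∑ j ∈ J, (w j : ℝ) * (f j a / v j - 1)) ≤ ∑ a ∈ S, (0 : ℝ) := by
    rw [Finset.sum_comm, Finset.sum_const_zero]
    refine Finset.sum_nonpos fun j hj => ?_
    rw [← Finset.mul_sum]
    rcases Nat.eq_zero_or_pos (w j) with h0 | h0
    · rw [h0]; simp
    refine mul_nonpos_of_nonneg_of_nonpos (Nat.cast_nonneg _) ?_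
    rw [Finset.sum_sub_distrib, Finset.sum_const, nsmul_eq_mul, mul_one, ← Finset.sum_div]
    have h1 := hv j hj (Nat.pos_iff_ne_zero.1 h0)
    rcases (hv0 j hj).eq_or_lt with h2 | h2
    · rw [← h2, div_zero]
      have : (0 : ℝ) ≤ (S.card : ℝ) := Nat.cast_nonneg _
      linarith
    · have h3 : (∑ a ∈ S, f j a) / v j ≤ (S.card : ℝ) := by
        rw [div_le_iff₀ h2]; exact h1
      linarith
  obtain ⟨a, ha, hle⟩ := Finset.exists_le_of_sum_le hS hsum
  refine ⟨a, ha, ?_⟩
  have hzero : ∀ j ∈ J, w j ≠ 0 → v j = 0 → f j a = 0 := by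
    intro j hj hw hvj
    have h1 := hv j hj hw
    rw [hvj, mul_zero] at h1
    have h2 := Finset.single_le_sum (f := fun a => f j a) (fun b hb => hf j hj b hb) ha
    exact le_antisymm (h2.trans h1) (hf j hj a ha)
  have h1 : ∀ j ∈ J, f j a ^ w j ≤ v j ^ w j * Real.exp ((w j : ℝ) * (f j a / v j - 1)) := by
    intro j hj
    rcases Nat.eq_zero_or_pos (w j) with h0 | h0
    · rw [h0]; simp
    rw [Real.exp_nat_mul, ← mul_pow]
    refine pow_le_pow_left₀ (hf j hj a ha) ?_ _
    rcases (hv0 j hj).eq_or_lt with h2 | h2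
    · rw [hzero j hj (Nat.pos_iff_ne_zero.1 h0) h2.symm, ← h2, zero_mul]
    · have h3 := Real.add_one_le_exp (f j a / v j - 1)
      have h4 : f j a / v j ≤ Real.exp (f j a / v j - 1) := by linarith
      calc f j a = v j * (f j a / v j) := by field_simp
        _ ≤ _ := mul_le_mul_of_nonneg_left h4 h2.le
  calc ∏ j ∈ J, f j a ^ w j
      ≤ ∏ j ∈ J, (v j ^ w j * Real.exp ((w j : ℝ) * (f j a / v j - 1))) :=
        Finset.prod_le_prod (fun j hj => pow_nonneg (hf j hj a ha) _) h1
    _ = (∏ j ∈ J, v j ^ w j) * Real.exp (∑ j ∈ J, (w j : ℝ) * (f j a / v j - 1)) := by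
        rw [Finset.prod_mul_distrib, Real.exp_sum]
    _ ≤ (∏ j ∈ J, v j ^ w j) * 1 := by
        refine mul_le_mul_of_nonneg_left ?_
          (Finset.prod_nonneg fun j hj => pow_nonneg (hv0 j hj) _)
        rw [Real.exp_le_one_iff]
        exact hle
    _ = _ := mul_one _

/-- the weights -/
def wt (H r j : ℕ) : ℕ := if j ≤ H then r.choose (H - j) else 0

lemma wt_succ {H r j : ℕ} (hj : j ≤ H) : wt H (r + 1) j = wt H r j + wt H r (j + 1) := by
  rcases hj.eq_or_lt with h | h
  · subst h
    simp [wt]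
  · obtain ⟨d, hd⟩ := Nat.exists_eq_add_of_lt h
    have e1 : H - j = d + 1 := by omega
    have e2 : H - (j + 1) = d := by omega
    have e3 : j + 1 ≤ H := h
    simp only [wt, if_pos hj, if_pos e3, e1, e2]
    rw [Nat.choose_succ_succ', add_comm]

lemma choose_le_choose_add {a b c d : ℕ} (hdc : d ≤ c) : a.choose b ≤ (a + c).choose (b + d) := by
  have h1 : ∀ t : ℕ, a.choose b ≤ (a + t).choose (b + t) := by
    intro t
    induction t with
    | zero => exact le_rfl
    | succ t ih =>
      refine ih.trans ?_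
      have : (a + (t + 1)).choose (b + (t + 1)) =
          (a + t).choose (b + t) + (a + t).choose (b + t + 1) := Nat.choose_succ_succ _ _
      omega
  obtain ⟨e, rfl⟩ := Nat.exists_eq_add_of_le hdc
  refine (h1 d).trans ?_
  exact Nat.choose_le_choose _ (by omega)

variable {G : Type*} [AddCommGroup G] [Fintype G] [DecidableEq G]

lemma card_rSum_le_choose (A : Finset G) (j : ℕ) : (rSum A j).card ≤ A.card.choose j := by
  rw [rSum, ← Finset.card_powersetCard]
  exact Finset.card_image_le

/-- the condition of the averaging inequality holds when a binomial coefficient is small -/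
lemma cond_of_choose (A : Finset G) (i : ℕ)
    (h : (A.card + 1).choose (i + 1) ≤ Fintype.card G) :
    A.card * (rSum A (i + 1)).card + Fintype.card G * i ≤ Fintype.card G * A.card ∨
      A.card * (rSum A i).card ≤ (i + 1) * Fintype.card G := by
  have h1 := card_rSum_le_choose A (i + 1)
  have h2 := card_rSum_le_choose A i
  set k := A.card
  set n := Fintype.card G
  rcases Nat.lt_or_ge k i with hki | hki
  · right
    rw [Nat.choose_eq_zero_of_lt hki] at h2
    have : (rSum A i).card = 0 := by omega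
    rw [this]; simp
  · left
    obtain ⟨d, hd⟩ := Nat.exists_eq_add_of_le hki
    -- `(k+1) C(k,i+1) = C(k+1,i+1) (k-i)`
    have h3 : (k + 1) * k.choose i = (k + 1).choose (i + 1) * (i + 1) :=
      Nat.add_one_mul_choose_eq _ _
    have h4 : (k + 1).choose (i + 1) = k.choose i + k.choose (i + 1) := Nat.choose_succ_succ _ _
    have h5 : (k + 1) * k.choose (i + 1) = (k + 1).choose (i + 1) * d := by
      have h6 : (k + 1) * k.choose i + (k + 1) * k.choose (i + 1) =
          (k + 1) * k.choose i + (k + 1).choose (i + 1) * d := by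
        rw [← mul_add, ← h4, h3, ← mul_add]
        have : k + 1 = i + 1 + d := by omega
        rw [mul_comm, this]
      exact Nat.add_left_cancel h6
    have h7 : k * (rSum A (i + 1)).card ≤ n * d := by
      calc k * (rSum A (i + 1)).card ≤ (k + 1) * k.choose (i + 1) :=
            Nat.mul_le_mul (Nat.le_succ k) h1
        _ = (k + 1).choose (i + 1) * d := h5
        _ ≤ n * d := Nat.mul_le_mul_right _ h
    calc k * (rSum A (i + 1)).card + n * i ≤ n * d + n * i := Nat.add_le_add_right h7 _
      _ = n * k := by rw [hd]; ring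

/-- one step -/
lemma step (A : Finset G) (hA : A.card < Fintype.card G) (H r : ℕ)
    (hc : ∀ i : ℕ, i + 1 ≤ H → r.choose (H - (i + 1)) ≠ 0 →
      (A.card + 1).choose (i + 1) ≤ Fintype.card G) :
    ∃ a, a ∉ A ∧ ∏ j ∈ Finset.range (H + 1), unc (insert a A) j ^ wt H r j ≤
      ∏ j ∈ Finset.range (H + 1), unc A j ^ wt H (r + 1) j := by
  have hne : (Aᶜ).Nonempty := by
    obtain ⟨x, hx⟩ := exists_notMem hA
    exact ⟨x, Finset.mem_compl.2 hx⟩
  obtain ⟨a, ha, hle⟩ := exists_prod_le Aᶜ hne (Finset.range (H + 1))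
    (fun j a => unc (insert a A) j)
    (fun j => match j with
      | 0 => unc A 0
      | (i + 1) => unc A (i + 1) * unc A i)
    (wt H r)
    (fun j _ a _ => unc_nonneg _ _)
    (by
      intro j _
      rcases j with _ | i
      · exact unc_nonneg _ _
      · exact mul_nonneg (unc_nonneg _ _) (unc_nonneg _ _))
    (by
      intro j hj hw
      rcases j with _ | i
      · refine le_of_eq ?_
        have : ∀ a ∈ Aᶜ, unc (insert a A) 0 = unc A 0 := by
          intro a _
          rw [unc_zero, unc_zero]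
        rw [Finset.sum_congr rfl this, Finset.sum_const, nsmul_eq_mul]
      · refine sum_unc_le A i (cond_of_choose A i (hc i ?_ ?_))
        · have := Finset.mem_range.1 hj
          omega
        · have h1 : i + 1 ≤ H := by
            have := Finset.mem_range.1 hj
            omega
          rw [wt, if_pos h1] at hw
          exact hw)
  refine ⟨a, Finset.mem_compl.1 ha, hle.trans (le_of_eq ?_)⟩
  rw [Finset.prod_range_succ' (n := H)]
  have e1 : ∏ j ∈ Finset.range (H + 1), unc A j ^ wt H (r + 1) j =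
      (∏ j ∈ Finset.range (H + 1), unc A j ^ wt H r j) *
      (∏ j ∈ Finset.range (H + 1), unc A j ^ wt H r (j + 1)) := by
    rw [← Finset.prod_mul_distrib]
    refine Finset.prod_congr rfl fun j hj => ?_
    rw [wt_succ (by have := Finset.mem_range.1 hj; omega), pow_add]
  rw [e1, Finset.prod_range_succ' (fun j => unc A j ^ wt H r j) H,
    Finset.prod_range_succ (fun j => unc A j ^ wt H r (j + 1)) H]
  have e2 : wt H r (H + 1) = 0 := by
    rw [wt, if_neg (by omega)]
  rw [e2, pow_zero, mul_one]
  simp only [mul_pow]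
  rw [Finset.prod_mul_distrib]
  ring

/-- the chain -/
lemma chain (H M : ℕ) : ∀ R : ℕ, R ≤ M → R ≤ Fintype.card G →
    (∀ k i : ℕ, k < R → i + 1 ≤ H → (M - k - 1).choose (H - (i + 1)) ≠ 0 →
      (k + 1).choose (i + 1) ≤ Fintype.card G) →
    ∃ A : Finset G, A.card = R ∧ ∏ j ∈ Finset.range (H + 1), unc A j ^ wt H (M - R) j ≤
      (1 - 1 / (Fintype.card G : ℝ)) ^ M.choose H := by
  intro R
  induction R with
  | zero =>
    intro _ _ _
    refine ⟨∅, rfl, le_of_eq ?_⟩
    rw [Finset.prod_range_succ' (n := H)]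
    have e1 : ∏ k ∈ Finset.range H, unc (∅ : Finset G) (k + 1) ^ wt H (M - 0) (k + 1) = 1 := by
      refine Finset.prod_eq_one fun k _ => ?_
      rw [unc_empty_succ, one_pow]
    rw [e1, one_mul, unc_zero, wt, if_pos (Nat.zero_le _), Nat.sub_zero, Nat.sub_zero]
  | succ R ih =>
    intro h1 h2 h3
    obtain ⟨A, hA, hle⟩ := ih (by omega) (by omega)
      (fun k i hk hi hne => h3 k i (by omega) hi hne)
    obtain ⟨a, ha, hle2⟩ := step A (by omega) H (M - (R + 1)) (by
      intro i hi hne
      rw [hA]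
      exact h3 R i (by omega) hi hne)
    refine ⟨insert a A, ?_, ?_⟩
    · rw [Finset.card_insert_of_notMem ha, hA]
    · have e : M - (R + 1) + 1 = M - R := by omega
      rw [e] at hle2
      exact hle2.trans hle

end Pool.Agent.MP_5949a1
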