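import Pool.Agent.Lib.MP_5949a1_co_h64.Basic

/-!
# Counting the elements missed by a restricted sumset after adding one element
-/

set_option autoImplicit false
set_option linter.unusedSectionVars false

namespace Pool.Agent.MP_5949a1

open Finset

variable {G : Type*} [AddCommGroup G] [Fintype G] [DecidableEq G]

/-- membership in the restricted sumset of `insert a A` -/
lemma mem_rSum_insert {A : Finset G} {a : G} (ha : a ∉ A) (i : ℕ) (x : G) :
    x ∈ rSum (insert a A) (i + 1) ↔ x ∈ rSum A (i + 1) ∨ x - a ∈ rSum A i := by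
  simp only [rSum, Finset.mem_image, Finset.mem_powersetCard]
  constructor
  · rintro ⟨I, ⟨hI, hc⟩, rfl⟩
    by_cases haI : a ∈ I
    · right
      refine ⟨I.erase a, ⟨?_, ?_⟩, ?_⟩
      · intro y hy
        rcases Finset.mem_insert.1 (hI (Finset.mem_of_mem_erase hy)) with h | h
        · exact absurd h (Finset.ne_of_mem_erase hy)
        · exact h
      · rw [Finset.card_erase_of_mem haI, hc]; rfl
      · rw [eq_sub_iff_add_eq]
        exact Finset.sum_erase_add I (fun a => a) haI
    · left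
      refine ⟨I, ⟨?_, hc⟩, rfl⟩
      intro y hy
      rcases Finset.mem_insert.1 (hI hy) with h | h
      · exact absurd (h ▸ hy) haI
      · exact h
  · rintro (⟨I, ⟨hI, hc⟩, rfl⟩ | ⟨I, ⟨hI, hc⟩, hx⟩)
    · exact ⟨I, ⟨hI.trans (Finset.subset_insert _ _), hc⟩, rfl⟩
    · have haI : a ∉ I := fun h => ha (hI h)
      refine ⟨insert a I, ⟨Finset.insert_subset_insert a hI, ?_⟩, ?_⟩
      · rw [Finset.card_insert_of_notMem haI, hc]
      · rw [Finset.sum_insert haI, hx]; abel

lemma compl_insert_eq {A : Finset G} {a : G} (ha : a ∉ A) (i : ℕ) :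
    (rSum (insert a A) (i + 1))ᶜ = ((rSum A (i + 1))ᶜ).filter (fun x => x - a ∉ rSum A i) := by
  ext x
  rw [Finset.mem_compl, mem_rSum_insert ha, Finset.mem_filter, Finset.mem_compl]
  tauto

lemma total_count (U T : Finset G) :
    ∑ a : G, (U.filter (fun x => x - a ∉ T)).card = U.card * (Tᶜ).card := by
  calc ∑ a : G, (U.filter (fun x => x - a ∉ T)).card
      = ∑ a : G, ∑ x ∈ U, (if x - a ∉ T then 1 else 0) := by
        refine Finset.sum_congr rfl fun a _ => ?_
        rw [Finset.card_filter]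
    _ = ∑ x ∈ U, ∑ a : G, (if x - a ∉ T then 1 else 0) := Finset.sum_comm
    _ = ∑ x ∈ U, (Tᶜ).card := by
        refine Finset.sum_congr rfl fun x _ => ?_
        rw [← Finset.card_filter]
        refine Finset.card_bij' (fun a _ => x - a) (fun t _ => x - t) ?_ ?_ ?_ ?_
        · intro a ha
          exact Finset.mem_compl.2 (Finset.mem_filter.1 ha).2
        · intro t ht
          refine Finset.mem_filter.2 ⟨Finset.mem_univ _, ?_⟩
          rw [sub_sub_cancel]
          exact Finset.mem_compl.1 ht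
        · intro a _
          exact sub_sub_cancel x a
        · intro t _
          exact sub_sub_cancel x t
    _ = U.card * (Tᶜ).card := by rw [Finset.sum_const, smul_eq_mul]

lemma shift_card (U T : Finset G) (a : G) :
    (T.filter (fun t => a + t ∈ U)).card = (U.filter (fun x => x - a ∈ T)).card := by
  refine Finset.card_bij' (fun t _ => a + t) (fun x _ => x - a) ?_ ?_ ?_ ?_
  · intro t ht
    obtain ⟨h1, h2⟩ := Finset.mem_filter.1 ht
    refine Finset.mem_filter.2 ⟨h2, ?_⟩
    rwa [add_sub_cancel_left]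
  · intro x hx
    obtain ⟨h1, h2⟩ := Finset.mem_filter.1 hx
    refine Finset.mem_filter.2 ⟨h2, ?_⟩
    rwa [add_sub_cancel]
  · intro t _
    exact add_sub_cancel_left a t
  · intro x _
    exact add_sub_cancel a x

lemma split_count (U T : Finset G) (a : G) :
    (U.filter (fun x => x - a ∉ T)).card + (T.filter (fun t => a + t ∈ U)).card = U.card := by
  rw [shift_card, add_comm]
  exact Finset.card_filter_add_card_filter_not (fun x => x - a ∈ T)

/-- the sum over all additions of the number of missed elements -/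
lemma sum_insert (A : Finset G) (i : ℕ) :
    ∑ a ∈ Aᶜ, ((rSum (insert a A) (i + 1))ᶜ).card + A.card * ((rSum A (i + 1))ᶜ).card =
      ((rSum A (i + 1))ᶜ).card * ((rSum A i)ᶜ).card +
      ∑ a ∈ A, ((rSum A i).filter (fun t => a + t ∈ (rSum A (i + 1))ᶜ)).card := by
  have h1 : ∑ a ∈ Aᶜ, ((rSum (insert a A) (i + 1))ᶜ).card =
      ∑ a ∈ Aᶜ, (((rSum A (i + 1))ᶜ).filter (fun x => x - a ∉ rSum A i)).card :=
    Finset.sum_congr rfl fun a ha => by rw [compl_insert_eq (Finset.mem_compl.1 ha)]
  have h2 := total_count ((rSum A (i + 1))ᶜ) (rSum A i)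
  rw [← Finset.sum_add_sum_compl A] at h2
  have h3 : ∑ a ∈ A, ((((rSum A (i + 1))ᶜ).filter (fun x => x - a ∉ rSum A i)).card +
      ((rSum A i).filter (fun t => a + t ∈ (rSum A (i + 1))ᶜ)).card) =
      A.card * ((rSum A (i + 1))ᶜ).card := by
    rw [Finset.sum_congr rfl fun a _ => split_count ((rSum A (i + 1))ᶜ) (rSum A i) a,
      Finset.sum_const, smul_eq_mul]
  rw [Finset.sum_add_distrib] at h3
  rw [h1]
  omega

/-- without any condition the average is at most the product -/
lemma sum_insert_le (A : Finset G) (i : ℕ) :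
    ∑ a ∈ Aᶜ, ((rSum (insert a A) (i + 1))ᶜ).card ≤
      ((rSum A (i + 1))ᶜ).card * ((rSum A i)ᶜ).card := by
  have h1 : ∑ a ∈ Aᶜ, ((rSum (insert a A) (i + 1))ᶜ).card =
      ∑ a ∈ Aᶜ, (((rSum A (i + 1))ᶜ).filter (fun x => x - a ∉ rSum A i)).card :=
    Finset.sum_congr rfl fun a ha => by rw [compl_insert_eq (Finset.mem_compl.1 ha)]
  have h2 := total_count ((rSum A (i + 1))ᶜ) (rSum A i)
  rw [← Finset.sum_add_sum_compl A] at h2
  omega

/-- first bound for the number of pairs `(a, t)` with `a + t` missed -/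
lemma q_le (A : Finset G) (i : ℕ) :
    ∑ a ∈ A, ((rSum A i).filter (fun t => a + t ∈ (rSum A (i + 1))ᶜ)).card ≤
      i * (rSum A i).card := by
  have h := Finset.sum_card_bipartiteAbove_eq_sum_card_bipartiteBelow
    (s := A) (t := rSum A i) (fun a t => a + t ∈ (rSum A (i + 1))ᶜ)
  simp only [Finset.bipartiteAbove, Finset.bipartiteBelow] at h
  rw [h]
  rw [mul_comm, ← smul_eq_mul]
  refine Finset.sum_le_card_nsmul _ _ _ fun t ht => ?_
  obtain ⟨I, hI, rfl⟩ := Finset.mem_image.1 ht
  obtain ⟨hI1, hI2⟩ := Finset.mem_powersetCard.1 hI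
  rw [← hI2]
  refine Finset.card_le_card fun a ha => ?_
  obtain ⟨haA, ha2⟩ := Finset.mem_filter.1 ha
  by_contra haI
  refine Finset.mem_compl.1 ha2 (Finset.mem_image.2 ⟨insert a I, Finset.mem_powersetCard.2
    ⟨Finset.insert_subset haA hI1, ?_⟩, ?_⟩)
  · rw [Finset.card_insert_of_notMem haI, hI2]
  · exact Finset.sum_insert haI

/-- the number of pairs `(a, t)` with `a + t` covered is at least `(i+1)` times the covered part -/
lemma p_ge (A : Finset G) (i : ℕ) :
    (i + 1) * (rSum A (i + 1)).card ≤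
      ∑ a ∈ A, ((rSum A i).filter (fun t => a + t ∈ rSum A (i + 1))).card := by
  have h0 : ∑ a ∈ A, ((rSum A i).filter (fun t => a + t ∈ rSum A (i + 1))).card =
      ∑ a ∈ A, ((rSum A (i + 1)).filter (fun x => x - a ∈ rSum A i)).card :=
    Finset.sum_congr rfl fun a _ => shift_card _ _ a
  rw [h0]
  have h := Finset.sum_card_bipartiteAbove_eq_sum_card_bipartiteBelow
    (s := A) (t := rSum A (i + 1)) (fun a x => x - a ∈ rSum A i)
  simp only [Finset.bipartiteAbove, Finset.bipartiteBelow] at h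
  rw [h]
  rw [mul_comm, ← smul_eq_mul]
  refine Finset.card_nsmul_le_sum _ _ _ fun t ht => ?_
  obtain ⟨I, hI, rfl⟩ := Finset.mem_image.1 ht
  obtain ⟨hI1, hI2⟩ := Finset.mem_powersetCard.1 hI
  rw [← hI2]
  refine Finset.card_le_card fun a ha => ?_
  refine Finset.mem_filter.2 ⟨hI1 ha, ?_⟩
  refine Finset.mem_image.2 ⟨I.erase a, Finset.mem_powersetCard.2
    ⟨(Finset.erase_subset _ _).trans hI1, ?_⟩, ?_⟩
  · rw [Finset.card_erase_of_mem ha, hI2]; rfl
  · rw [eq_sub_iff_add_eq]
    exact Finset.sum_erase_add I (fun a => a) ha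

/-- second bound for the number of pairs `(a, t)` with `a + t` missed -/
lemma q_add_le (A : Finset G) (i : ℕ) :
    ∑ a ∈ A, ((rSum A i).filter (fun t => a + t ∈ (rSum A (i + 1))ᶜ)).card +
      (i + 1) * (rSum A (i + 1)).card ≤ A.card * (rSum A i).card := by
  have h1 := p_ge A i
  have h2 : ∑ a ∈ A, (((rSum A i).filter (fun t => a + t ∈ rSum A (i + 1))).card +
      ((rSum A i).filter (fun t => a + t ∈ (rSum A (i + 1))ᶜ)).card) =
      A.card * (rSum A i).card := by
    rw [← smul_eq_mul, ← Finset.sum_const]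
    refine Finset.sum_congr rfl fun a _ => ?_
    simp only [Finset.mem_compl]
    exact Finset.card_filter_add_card_filter_not (fun t => a + t ∈ rSum A (i + 1))
  rw [Finset.sum_add_distrib] at h2
  omega

/-- the share of elements missed by the restricted `j`-fold sumset -/
noncomputable def unc (A : Finset G) (j : ℕ) : ℝ :=
  1 - ((rSum A j).card : ℝ) / (Fintype.card G : ℝ)

lemma card_pos_real : (0 : ℝ) < (Fintype.card G : ℝ) := by
  have : 0 < Fintype.card G := Fintype.card_pos_iff.2 ⟨0⟩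
  exact_mod_cast this

lemma compl_card_real (S : Finset G) : ((Sᶜ).card : ℝ) = (Fintype.card G : ℝ) - (S.card : ℝ) := by
  have h : S.card + (Sᶜ).card = Fintype.card G := Finset.card_add_card_compl S
  have h2 : (S.card : ℝ) + ((Sᶜ).card : ℝ) = (Fintype.card G : ℝ) := by exact_mod_cast h
  linarith

lemma unc_eq (A : Finset G) (j : ℕ) :
    unc A j = (((rSum A j)ᶜ).card : ℝ) / (Fintype.card G : ℝ) := by
  have hn := card_pos_real (G := G)
  rw [unc, compl_card_real, sub_div, div_self hn.ne']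

lemma unc_nonneg (A : Finset G) (j : ℕ) : 0 ≤ unc A j := by
  rw [unc_eq]; positivity

lemma unc_le_one (A : Finset G) (j : ℕ) : unc A j ≤ 1 := by
  have : (0 : ℝ) ≤ ((rSum A j).card : ℝ) / (Fintype.card G : ℝ) := by positivity
  rw [unc]; linarith

lemma rSum_zero (A : Finset G) : rSum A 0 = {0} := by
  simp [rSum]

lemma unc_zero (A : Finset G) : unc A 0 = 1 - 1 / (Fintype.card G : ℝ) := by
  rw [unc, rSum_zero]; simp

lemma unc_empty_succ (j : ℕ) : unc (∅ : Finset G) (j + 1) = 1 := by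
  have : rSum (∅ : Finset G) (j + 1) = ∅ := by
    rw [rSum, Finset.powersetCard_eq_empty.2 (by simp), Finset.image_empty]
  rw [unc, this]; simp

/-- the averaging inequality, under a condition -/
lemma sum_unc_le (A : Finset G) (i : ℕ)
    (hcond : A.card * (rSum A (i + 1)).card + Fintype.card G * i ≤ Fintype.card G * A.card ∨
      A.card * (rSum A i).card ≤ (i + 1) * Fintype.card G) :
    ∑ a ∈ Aᶜ, unc (insert a A) (i + 1) ≤ ((Aᶜ).card : ℝ) * (unc A (i + 1) * unc A i) := by
  have hn := card_pos_real (G := G)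
  have h0 := sum_insert A i
  have h1 := q_le A i
  have h2 := q_add_le A i
  have e1 : ∑ a ∈ Aᶜ, unc (insert a A) (i + 1) =
      ((∑ a ∈ Aᶜ, ((rSum (insert a A) (i + 1))ᶜ).card : ℕ) : ℝ) / (Fintype.card G : ℝ) := by
    rw [Nat.cast_sum, Finset.sum_div]
    exact Finset.sum_congr rfl fun a _ => unc_eq _ _
  rw [e1, unc_eq, unc_eq]
  have eU := compl_card_real (rSum A (i + 1))
  have eV := compl_card_real (rSum A i)
  have eA := compl_card_real A
  generalize (∑ a ∈ Aᶜ, ((rSum (insert a A) (i + 1))ᶜ).card) = X at *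
  generalize (∑ a ∈ A, ((rSum A i).filter (fun t => a + t ∈ (rSum A (i + 1))ᶜ)).card) = Q at *
  generalize ((rSum A (i + 1))ᶜ).card = U at *
  generalize ((rSum A i)ᶜ).card = V at *
  generalize (rSum A (i + 1)).card = s1 at *
  generalize (rSum A i).card = s0 at *
  generalize (Aᶜ).card = k' at *
  generalize A.card = k at *
  generalize Fintype.card G = n at *
  have h0' : (X : ℝ) + k * U = U * V + Q := by exact_mod_cast h0
  have h1' : (Q : ℝ) ≤ i * s0 := by exact_mod_cast h1
  have h2' : (Q : ℝ) + (i + 1) * s1 ≤ k * s0 := by exact_mod_cast h2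
  have hs0 : (0 : ℝ) ≤ s0 := Nat.cast_nonneg _
  have hs1 : (0 : ℝ) ≤ s1 := Nat.cast_nonneg _
  have hc : (k : ℝ) * s1 + n * i ≤ n * k ∨ (k : ℝ) * s0 ≤ (i + 1) * n := by
    rcases hcond with h | h
    · left; exact_mod_cast h
    · right; exact_mod_cast h
  have key : (n : ℝ) * Q ≤ k * U * s0 := by
    rw [eU]
    rcases hc with h | h
    · have h3 : (n : ℝ) * Q ≤ n * (i * s0) := mul_le_mul_of_nonneg_left h1' hn.le
      have h4 : ((k : ℝ) * s1 + n * i) * s0 ≤ n * k * s0 := mul_le_mul_of_nonneg_right h hs0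
      linarith
    · have h3 : (n : ℝ) * (Q + (i + 1) * s1) ≤ n * (k * s0) := mul_le_mul_of_nonneg_left h2' hn.le
      have h4 : (k : ℝ) * s0 * s1 ≤ (i + 1) * n * s1 := mul_le_mul_of_nonneg_right h hs1
      linarith
  have key2 : (n : ℝ) * X ≤ k' * (U * V) := by
    have h3 : (X : ℝ) = U * V + Q - k * U := by linarith
    have h4 : (V : ℝ) = n - s0 := eV
    rw [h3, eA]
    have h5 : (n : ℝ) * (U * V + Q - k * U) = n * (U * V) + n * Q - n * (k * U) := by ring
    have h6 : ((n : ℝ) - k) * (U * V) = n * (U * V) - k * U * n + k * U * s0 := by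
      rw [h4]; ring
    rw [h5, h6]
    linarith
  have h7 : (k' : ℝ) * ((U : ℝ) / n * (V / n)) = (k' * (U * V)) / n / n := by
    field_simp
  rw [h7]
  have h8 : (X : ℝ) / n = (n * X) / n / n := by
    field_simp
  rw [h8]
  gcongr

/-- the averaging inequality without a condition -/
lemma sum_unc_le_weak (A : Finset G) (i : ℕ) :
    ∑ a ∈ Aᶜ, unc (insert a A) (i + 1) ≤ (Fintype.card G : ℝ) * (unc A (i + 1) * unc A i) := by
  have hn := card_pos_real (G := G)
  have h0 := sum_insert_le A i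
  have e1 : ∑ a ∈ Aᶜ, unc (insert a A) (i + 1) =
      ((∑ a ∈ Aᶜ, ((rSum (insert a A) (i + 1))ᶜ).card : ℕ) : ℝ) / (Fintype.card G : ℝ) := by
    rw [Nat.cast_sum, Finset.sum_div]
    exact Finset.sum_congr rfl fun a _ => unc_eq _ _
  rw [e1, unc_eq, unc_eq]
  have h1 : ((∑ a ∈ Aᶜ, ((rSum (insert a A) (i + 1))ᶜ).card : ℕ) : ℝ) ≤
      (((rSum A (i + 1))ᶜ).card : ℝ) * (((rSum A i)ᶜ).card : ℝ) := by exact_mod_cast h0
  rw [div_le_iff₀ hn]
  refine h1.trans (le_of_eq ?_)
  field_simp

end Pool.Agent.MP_5949a1
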