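import Pool.Agent.Lib.MP_5949a1_co_h34.Chain
import Pool.Agent.Lib.MP_5949a1_co_h64.Large

/-!
# The random-set bound and the constant `1 - 1/e`
-/

set_option autoImplicit false
set_option linter.unusedSectionVars false

namespace Pool.Agent.MP_5949a1

open Finset

variable {G : Type*} [AddCommGroup G] [Fintype G] [DecidableEq G]

lemma card_eq_unc (A : Finset G) (j : ℕ) :
    ((rSum A j).card : ℝ) = (Fintype.card G : ℝ) * (1 - unc A j) := by
  have hn := card_pos_real (G := G)
  rw [unc]; field_simp; ring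

lemma le_nuHat_of_unc {A : Finset G} {m : ℕ} (hA : A.card = m) (j : ℕ) {x : ℝ}
    (hx : unc A j ≤ x) : (Fintype.card G : ℝ) * (1 - x) ≤ (nuHat G m j : ℝ) := by
  have h3 := card_rSum_le A j
  rw [hA] at h3
  have h4 : ((rSum A j).card : ℝ) ≤ (nuHat G m j : ℝ) := by exact_mod_cast h3
  refine le_trans ?_ h4
  rw [card_eq_unc]
  exact mul_le_mul_of_nonneg_left (by linarith) card_pos_real.le

/-- **First bound**: as many elements as a random family of `m.choose h` elements. -/
theorem bound_small {m h : ℕ} (hmn : m ≤ Fintype.card G)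
    (hC : m.choose h ≤ Fintype.card G) :
    (Fintype.card G : ℝ) * (1 - (1 - 1 / (Fintype.card G : ℝ)) ^ m.choose h) ≤
      (nuHat G m h : ℝ) := by
  obtain ⟨A, hA, hle⟩ := chain (G := G) h m m le_rfl hmn (by
    intro k i hk hi hne
    refine le_trans ?_ hC
    have h1 : h - (i + 1) ≤ m - k - 1 := by
      by_contra hcon
      exact hne (Nat.choose_eq_zero_of_lt (by omega))
    have h2 := choose_le_choose_add (a := k + 1) (b := i + 1) (c := m - k - 1)
      (d := h - (i + 1)) h1
    rwa [show k + 1 + (m - k - 1) = m by omega, show i + 1 + (h - (i + 1)) = h by omega] at h2)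
  have e : ∏ j ∈ Finset.range (h + 1), unc A j ^ wt h (m - m) j = unc A h := by
    rw [Finset.prod_range_succ, Nat.sub_self]
    have e1 : ∏ x ∈ Finset.range h, unc A x ^ wt h 0 x = 1 := by
      refine Finset.prod_eq_one fun j hj => ?_
      have hj' := Finset.mem_range.1 hj
      have : wt h 0 j = 0 := by
        rw [wt, if_pos hj'.le]
        exact Nat.choose_eq_zero_of_lt (by omega)
      rw [this, pow_zero]
    rw [e1, one_mul]
    have : wt h 0 h = 1 := by simp [wt]
    rw [this, pow_one]
  rw [e] at hle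
  exact le_nuHat_of_unc hA h hle

lemma exp_neg_le {t : ℝ} (h0 : 0 ≤ t) (h1 : t ≤ 1) :
    Real.exp (-t) ≤ 1 - (1 - Real.exp (-1)) * t := by
  have h := convexOn_exp.2 (Set.mem_univ (0 : ℝ)) (Set.mem_univ (-1 : ℝ))
    (show (0 : ℝ) ≤ 1 - t by linarith) h0 (by ring)
  simp only [smul_eq_mul, mul_zero, zero_add, Real.exp_zero, mul_one] at h
  have e : t * (-1 : ℝ) = -t := by ring
  rw [e] at h
  linarith

lemma one_sub_nonneg : (0 : ℝ) ≤ 1 - 1 / (Fintype.card G : ℝ) := by
  have h := unc_nonneg (∅ : Finset G) 0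
  rwa [unc_zero] at h

lemma pow_le_exp (C : ℕ) : (1 - 1 / (Fintype.card G : ℝ)) ^ C ≤
    Real.exp (-((C : ℝ) / (Fintype.card G : ℝ))) := by
  have h1 := Real.add_one_le_exp (-(1 / (Fintype.card G : ℝ)))
  have h2 : 1 - 1 / (Fintype.card G : ℝ) ≤ Real.exp (-(1 / (Fintype.card G : ℝ))) := by linarith
  refine (pow_le_pow_left₀ one_sub_nonneg h2 C).trans (le_of_eq ?_)
  rw [← Real.exp_nat_mul]
  congr 1
  ring

lemma third_le : (1 : ℝ) / 3 ≤ Real.exp (-1) := by
  have h := Real.exp_one_lt_d9
  rw [Real.exp_neg, ← one_div]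
  refine one_div_le_one_div_of_le (Real.exp_pos 1) ?_
  linarith

/-- the constant `1 - 1/e` when the binomial coefficient is at most `n` -/
lemma const_small {m h : ℕ} (hmn : m ≤ Fintype.card G)
    (hC : m.choose h ≤ Fintype.card G) :
    (1 - Real.exp (-1)) * (m.choose h : ℝ) ≤ (nuHat G m h : ℝ) := by
  have hn := card_pos_real (G := G)
  refine le_trans ?_ (bound_small hmn hC)
  set C := m.choose h
  have hC' : (C : ℝ) ≤ (Fintype.card G : ℝ) := by exact_mod_cast hC
  have h1 := pow_le_exp (G := G) C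
  have h2 := exp_neg_le (t := (C : ℝ) / (Fintype.card G : ℝ)) (by positivity)
    (by rw [div_le_one hn]; exact hC')
  have h3 : (Fintype.card G : ℝ) * ((1 - Real.exp (-1)) * ((C : ℝ) / (Fintype.card G : ℝ))) ≤
      (Fintype.card G : ℝ) * (1 - (1 - 1 / (Fintype.card G : ℝ)) ^ C) :=
    mul_le_mul_of_nonneg_left (by linarith) hn.le
  refine le_trans (le_of_eq ?_) h3
  field_simp

lemma final_real {K n x u1 u0 : ℝ} (hK : 5 ≤ K) (hKn : K + 1 ≤ n) (hq : K * (K - 1) + 2 ≤ 2 * n)
    (hx : x * (n - K) ≤ n * (u1 * u0)) (hp : 4 * (K * u1 * (K * u0)) ≤ (K - 1) ^ 2) :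
    x ≤ 1 / 3 := by
  by_contra hcon
  push Not at hcon
  have h0 : 1 / 3 * (n - K) < x * (n - K) := mul_lt_mul_of_pos_right hcon (by linarith)
  have h1 : 1 / 3 * (n - K) < n * (u1 * u0) := lt_of_lt_of_le h0 hx
  have h2 : 4 * K ^ 2 * (1 / 3 * (n - K)) < 4 * K ^ 2 * (n * (u1 * u0)) :=
    mul_lt_mul_of_pos_left h1 (by positivity)
  have h3 : n * (4 * (K * u1 * (K * u0))) ≤ n * (K - 1) ^ 2 :=
    mul_le_mul_of_nonneg_left hp (by linarith)
  have h4 : 4 * K ^ 2 * (n * (u1 * u0)) = n * (4 * (K * u1 * (K * u0))) := by ring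
  have h6 : n * (K ^ 2 + 6 * K - 3) < 4 * K ^ 3 := by
    rw [h4] at h2
    have h5 : 4 * K ^ 2 * (1 / 3 * (n - K)) < n * (K - 1) ^ 2 := lt_of_lt_of_le h2 h3
    linarith
  have hpos : 0 ≤ K ^ 2 + 6 * K - 3 := by
    have : 0 ≤ K ^ 2 := sq_nonneg K
    linarith
  have h7 : (K * (K - 1) + 2) * (K ^ 2 + 6 * K - 3) ≤ 2 * n * (K ^ 2 + 6 * K - 3) :=
    mul_le_mul_of_nonneg_right hq hpos
  have h8 : 0 ≤ K ^ 3 * (K - 5) := mul_nonneg (by positivity) (by linarith)
  have h9 : 0 ≤ K ^ 2 * (K - 5) := mul_nonneg (by positivity) (by linarith)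
  have h10 : 0 ≤ K ^ 2 := sq_nonneg K
  linarith

/-- the last step, when the binomial coefficient passes `n` -/
lemma last_step {K i : ℕ} (hiK : i + 1 ≤ K) (hKn : K + 1 ≤ Fintype.card G)
    (h1 : K.choose (i + 1) < Fintype.card G) (h2 : K.choose i < Fintype.card G)
    (hC : Fintype.card G ≤ (K + 1).choose (i + 1)) :
    (1 - Real.exp (-1)) * (Fintype.card G : ℝ) ≤ (nuHat G (K + 1) (i + 1) : ℝ) := by
  have hn := card_pos_real (G := G)
  obtain ⟨A, hA, hle⟩ := chain (G := G) (i + 1) (K + 1) K (by omega) (by omega) (by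
    intro k i' hk hi hne
    have h3 : i + 1 - (i' + 1) ≤ K + 1 - k - 1 := by
      by_contra hcon
      exact hne (Nat.choose_eq_zero_of_lt (by omega))
    rcases Nat.lt_or_ge (i + 1 - (i' + 1)) (K + 1 - k - 1) with h4 | h4
    · have h5 := choose_le_choose_add (a := k + 1) (b := i' + 1) (c := K + 1 - k - 1 - 1)
        (d := i + 1 - (i' + 1)) (by omega)
      rw [show k + 1 + (K + 1 - k - 1 - 1) = K by omega,
        show i' + 1 + (i + 1 - (i' + 1)) = i + 1 by omega] at h5
      omega
    · have h5 := choose_le_choose_add (a := k + 1) (b := i' + 1) (c := K + 1 - k - 1 - 1)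
        (d := i - (i' + 1)) (by omega)
      rw [show k + 1 + (K + 1 - k - 1 - 1) = K by omega,
        show i' + 1 + (i - (i' + 1)) = i by omega] at h5
      omega)
  have e : ∏ j ∈ Finset.range (i + 1 + 1), unc A j ^ wt (i + 1) (K + 1 - K) j =
      unc A i * unc A (i + 1) := by
    rw [Finset.prod_range_succ, Finset.prod_range_succ, show K + 1 - K = 1 by omega]
    have e1 : ∏ x ∈ Finset.range i, unc A x ^ wt (i + 1) 1 x = 1 := by
      refine Finset.prod_eq_one fun j hj => ?_
      have hj' := Finset.mem_range.1 hj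
      have : wt (i + 1) 1 j = 0 := by
        rw [wt, if_pos (by omega)]
        exact Nat.choose_eq_zero_of_lt (by omega)
      rw [this, pow_zero]
    have e2 : wt (i + 1) 1 i = 1 := by simp [wt]
    have e3 : wt (i + 1) 1 (i + 1) = 1 := by simp [wt]
    rw [e1, e2, e3, one_mul, pow_one, pow_one]
  rw [e] at hle
  have hp : unc A (i + 1) * unc A i ≤ Real.exp (-1) := by
    rw [mul_comm]
    refine hle.trans ?_
    have h3 : (1 - 1 / (Fintype.card G : ℝ)) ^ (K + 1).choose (i + 1) ≤
        (1 - 1 / (Fintype.card G : ℝ)) ^ (Fintype.card G) := by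
      refine pow_le_pow_of_le_one one_sub_nonneg ?_ hC
      have : (0 : ℝ) ≤ 1 / (Fintype.card G : ℝ) := by positivity
      linarith
    refine h3.trans ((pow_le_exp (G := G) (Fintype.card G)).trans (le_of_eq ?_))
    rw [div_self hn.ne']
  have hne : (Aᶜ).Nonempty := by
    obtain ⟨x, hx⟩ := exists_notMem (A := A) (by omega)
    exact ⟨x, Finset.mem_compl.2 hx⟩
  have hins : ∀ a ∈ Aᶜ, (insert a A).card = K + 1 := by
    intro a ha
    rw [Finset.card_insert_of_notMem (Finset.mem_compl.1 ha), hA]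
  have hthird := third_le
  -- finishing from a bound for `unc`
  have fin : ∀ a ∈ Aᶜ, unc (insert a A) (i + 1) ≤ Real.exp (-1) →
      (1 - Real.exp (-1)) * (Fintype.card G : ℝ) ≤ (nuHat G (K + 1) (i + 1) : ℝ) := by
    intro a ha hx
    have := le_nuHat_of_unc (hins a ha) (i + 1) hx
    linarith
  -- finishing from a set with more than two thirds covered
  have fin2 : ∀ s : ℕ, 2 * Fintype.card G ≤ 3 * s → s ≤ nuHat G (K + 1) (i + 1) →
      (1 - Real.exp (-1)) * (Fintype.card G : ℝ) ≤ (nuHat G (K + 1) (i + 1) : ℝ) := by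
    intro s hs1 hs2
    have hs1' : 2 * (Fintype.card G : ℝ) ≤ 3 * (s : ℝ) := by exact_mod_cast hs1
    have hs2' : (s : ℝ) ≤ (nuHat G (K + 1) (i + 1) : ℝ) := by exact_mod_cast hs2
    have h5 : (1 - Real.exp (-1)) * (Fintype.card G : ℝ) ≤ 2 / 3 * (Fintype.card G : ℝ) :=
      mul_le_mul_of_nonneg_right (by linarith) hn.le
    linarith
  by_cases hcond : A.card * (rSum A (i + 1)).card + Fintype.card G * i ≤
      Fintype.card G * A.card ∨ A.card * (rSum A i).card ≤ (i + 1) * Fintype.card G
  · have h3 := sum_unc_le A i hcond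
    have h4 : ∑ a ∈ Aᶜ, unc (insert a A) (i + 1) ≤ ∑ a ∈ Aᶜ, (unc A (i + 1) * unc A i) := by
      rw [Finset.sum_const, nsmul_eq_mul]; exact h3
    obtain ⟨a, ha, hle3⟩ := Finset.exists_le_of_sum_le hne h4
    exact fin a ha (hle3.trans hp)
  · push Not at hcond
    obtain ⟨hc1, hc2⟩ := hcond
    rw [hA] at hc1 hc2
    have hs1n : (rSum A (i + 1)).card ≤ Fintype.card G := Finset.card_le_univ _
    have hs0n : (rSum A i).card ≤ Fintype.card G := Finset.card_le_univ _
    have hs1 : (rSum A (i + 1)).card ≤ nuHat G (K + 1) (i + 1) := by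
      have h3 := card_rSum_le A (i + 1)
      rw [hA] at h3
      exact h3.trans (nuHat_mono_left (i + 1) hKn)
    have hs0 : (rSum A i).card ≤ nuHat G (K + 1) (i + 1) := by
      have h3 := card_rSum_le A i
      rw [hA] at h3
      exact h3.trans (nuHat_mono_both i hKn)
    -- `i ≠ 0`
    have hi0 : 1 ≤ i := by
      by_contra hcon
      have h0 : i = 0 := by omega
      rw [h0, mul_zero, add_zero] at hc1
      rw [h0] at hs1n
      have h5 : K * (rSum A (0 + 1)).card ≤ K * Fintype.card G := Nat.mul_le_mul_left _ hs1n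
      rw [mul_comm (Fintype.card G) K] at hc1
      omega
    have hiK2 : i + 2 ≤ K := by
      by_contra hcon
      have h0 : i + 1 = K := by omega
      rw [h0] at hc2
      have h5 : K * (rSum A i).card ≤ K * Fintype.card G := Nat.mul_le_mul_left _ hs0n
      omega
    rcases hi0.eq_or_lt with h0 | hi2
    · -- `i = 1`
      refine fin2 _ ?_ hs1
      have hc1' : Fintype.card G * K < K * (rSum A (i + 1)).card + Fintype.card G := by
        rw [← h0] at hc1 ⊢
        omega
      have h6 : 3 * Fintype.card G ≤ K * Fintype.card G := Nat.mul_le_mul_right _ (by omega)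
      have h7 : K * (2 * Fintype.card G) ≤ K * (3 * (rSum A (i + 1)).card) := by
        have e1 : K * (2 * Fintype.card G) = 2 * (Fintype.card G * K) := by ring
        have e2 : K * (3 * (rSum A (i + 1)).card) = 3 * (K * (rSum A (i + 1)).card) := by ring
        rw [e1, e2]
        have e3 : K * Fintype.card G = Fintype.card G * K := mul_comm _ _
        omega
      exact Nat.le_of_mul_le_mul_left h7 (by omega)
    rcases hiK2.eq_or_lt with h0 | hiK3
    · -- `i + 2 = K`
      refine fin2 _ ?_ hs0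
      have h6 : 3 * Fintype.card G ≤ K * Fintype.card G := Nat.mul_le_mul_right _ (by omega)
      have h8 : (i + 1) * Fintype.card G + Fintype.card G = K * Fintype.card G := by
        rw [← h0]; ring
      have h7 : K * (2 * Fintype.card G) ≤ K * (3 * (rSum A i).card) := by
        have e1 : K * (2 * Fintype.card G) = 2 * (K * Fintype.card G) := by ring
        have e2 : K * (3 * (rSum A i).card) = 3 * (K * (rSum A i).card) := by ring
        rw [e1, e2]
        omega
      exact Nat.le_of_mul_le_mul_left h7 (by omega)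
    · -- the middle range
      have hq := quad_le_choose K (i + 1) (by omega) (by omega)
      have hq2 : K * (K - 1) + 2 ≤ 2 * Fintype.card G := by omega
      have hK5 : 5 ≤ K := by omega
      have h3 := sum_unc_le_weak A i
      have hAc : ((Aᶜ).card : ℝ) = (Fintype.card G : ℝ) - (K : ℝ) := by
        rw [compl_card_real, hA]
      have hKn' : (K : ℝ) + 1 ≤ (Fintype.card G : ℝ) := by exact_mod_cast hKn
      have hAcpos : (0 : ℝ) < ((Aᶜ).card : ℝ) := by rw [hAc]; linarith
      have h4 : ∑ a ∈ Aᶜ, unc (insert a A) (i + 1) ≤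
          ∑ a ∈ Aᶜ, ((Fintype.card G : ℝ) * (unc A (i + 1) * unc A i) / ((Aᶜ).card : ℝ)) := by
        rw [Finset.sum_const, nsmul_eq_mul, mul_div_cancel₀ _ hAcpos.ne']
        exact h3
      obtain ⟨a, ha, hle3⟩ := Finset.exists_le_of_sum_le hne h4
      refine fin a ha (le_trans ?_ hthird)
      rw [le_div_iff₀ hAcpos, hAc] at hle3
      -- real inequalities
      have hu1 : (K : ℝ) * unc A (i + 1) ≤ (i : ℝ) := by
        have h5 : (Fintype.card G : ℝ) * K ≤ K * ((rSum A (i + 1)).card : ℝ) +
            (Fintype.card G : ℝ) * i := by exact_mod_cast hc1.le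
        have h6 : (Fintype.card G : ℝ) * ((K : ℝ) * unc A (i + 1)) ≤ (Fintype.card G : ℝ) * i := by
          rw [card_eq_unc] at h5
          linarith
        exact le_of_mul_le_mul_left h6 hn
      have hu0 : (K : ℝ) * unc A i ≤ (K : ℝ) - i - 1 := by
        have h5 : ((i : ℝ) + 1) * (Fintype.card G : ℝ) ≤ K * ((rSum A i).card : ℝ) := by
          exact_mod_cast hc2.le
        have h6 : (Fintype.card G : ℝ) * ((K : ℝ) * unc A i) ≤
            (Fintype.card G : ℝ) * ((K : ℝ) - i - 1) := by
          rw [card_eq_unc] at h5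
          linarith
        exact le_of_mul_le_mul_left h6 hn
      have hK5' : (5 : ℝ) ≤ (K : ℝ) := by exact_mod_cast hK5
      have hq3 : (K : ℝ) * ((K : ℝ) - 1) + 2 ≤ 2 * (Fintype.card G : ℝ) := by
        have h5 : ((K * (K - 1) + 2 : ℕ) : ℝ) ≤ ((2 * Fintype.card G : ℕ) : ℝ) := by
          exact_mod_cast hq2
        have h6 : ((K - 1 : ℕ) : ℝ) = (K : ℝ) - 1 := by
          rw [Nat.cast_sub (by omega), Nat.cast_one]
        push_cast at h5
        rw [h6] at h5
        exact h5
      have hprod : (K : ℝ) * unc A (i + 1) * ((K : ℝ) * unc A i) ≤ (i : ℝ) * ((K : ℝ) - i - 1) :=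
        mul_le_mul hu1 hu0 (mul_nonneg (Nat.cast_nonneg _) (unc_nonneg _ _)) (Nat.cast_nonneg _)
      have hprod2 : 4 * ((K : ℝ) * unc A (i + 1) * ((K : ℝ) * unc A i)) ≤ ((K : ℝ) - 1) ^ 2 := by
        have h5 : 4 * ((i : ℝ) * ((K : ℝ) - i - 1)) ≤ ((K : ℝ) - 1) ^ 2 := by
          have h6 : 0 ≤ ((K : ℝ) - 1 - 2 * i) ^ 2 := sq_nonneg _
          linarith
        linarith
      exact final_real hK5' hKn' hq3 hle3 hprod2

/-- **The constant `1 - 1/e`**: for all parameters, at least this share of the trivial upper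
bound is attained. -/
theorem const_bound {m : ℕ} : ∀ h : ℕ, 1 ≤ h → h ≤ m → m ≤ Fintype.card G →
    (1 - Real.exp (-1)) * ((min (Fintype.card G) (m.choose h) : ℕ) : ℝ) ≤ (nuHat G m h : ℝ) := by
  induction m with
  | zero => intro h h1 h2; omega
  | succ m ih =>
    intro h hh hm hmn
    rcases Nat.lt_or_ge (Fintype.card G) ((m + 1).choose h) with hC | hC
    · have hlt : h < m + 1 := by
        rcases hm.eq_or_lt with h1 | h1
        · subst h1; rw [Nat.choose_self] at hC; omega
        · exact h1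
      by_cases h1 : Fintype.card G ≤ m.choose h
      · have h2 := ih h hh (by omega) (by omega)
        rw [min_eq_left h1] at h2
        rw [min_eq_left hC.le]
        refine h2.trans ?_
        exact_mod_cast nuHat_mono_left h hmn
      by_cases h2 : Fintype.card G ≤ m.choose (h - 1)
      · have hh2 : 1 ≤ h - 1 := by
          by_contra hcon
          have h0 : h - 1 = 0 := by omega
          rw [h0, Nat.choose_zero_right] at h2
          have h3 : m = 0 := by omega
          subst h3
          omega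
        have h3 := ih (h - 1) hh2 (by omega) (by omega)
        rw [min_eq_left h2] at h3
        rw [min_eq_left hC.le]
        have h4 := nuHat_mono_both (G := G) (m := m) (h - 1) hmn
        rw [Nat.sub_add_cancel hh] at h4
        refine h3.trans ?_
        exact_mod_cast h4
      push Not at h1 h2
      obtain ⟨i, rfl⟩ := Nat.exists_eq_add_of_le' hh
      rw [min_eq_left hC.le]
      exact last_step (by omega) hmn h1 h2 hC.le
    · rw [min_eq_right hC]
      exact const_small hmn hC

end Pool.Agent.MP_5949a1
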