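import Pool.Agent.Lib.MP_5949a1_co_h34.Asym
import Pool.Agent.Lib.MP_5949a1_co_h64.Exact

/-!
# Everything is covered when `C(m,h) ≥ (1 + δ) n ln n`
-/

set_option autoImplicit false
set_option linter.unusedSectionVars false

namespace Pool.Agent.MP_5949a1

open Finset

/-- a thin basis of order two with different summands -/
lemma thin (n : ℕ) (hn : 9 ≤ n) : ∃ A : Finset ℕ, A.card ≤ 2 * Nat.sqrt n + 3 ∧
    (∀ a ∈ A, a < n) ∧ ∀ x : ℕ, 1 ≤ x → x ≤ n → ∃ a ∈ A, ∃ b ∈ A, a < b ∧ a + b = x := by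
  obtain ⟨r0, hr0⟩ : ∃ r0, r0 = Nat.sqrt n := ⟨_, rfl⟩
  have h1 : r0 * r0 ≤ n := by rw [hr0]; exact Nat.sqrt_le n
  have h2 : n < (r0 + 1) * (r0 + 1) := by rw [hr0]; exact Nat.lt_succ_sqrt n
  have h3 : 3 ≤ r0 := by
    rw [hr0, Nat.le_sqrt]; omega
  rw [← hr0]
  have hs2 : 2 * (r0 + 1) < n := by nlinarith
  have hsn : r0 + 1 < n := by omega
  obtain ⟨q, hq⟩ : ∃ q, q = (n - 1) / (r0 + 1) := ⟨_, rfl⟩
  have hqs : q * (r0 + 1) ≤ n - 1 := by rw [hq]; exact Nat.div_mul_le_self _ _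
  have hqr : q ≤ r0 := by
    have h4 : (n - 1) / (r0 + 1) < r0 + 1 := by
      rw [Nat.div_lt_iff_lt_mul (by omega)]
      omega
    omega
  refine ⟨Finset.range (r0 + 2) ∪ (Finset.range (q + 1)).image (fun i => i * (r0 + 1)), ?_, ?_, ?_⟩
  · refine (Finset.card_union_le _ _).trans ?_
    have h4 : ((Finset.range (q + 1)).image (fun i => i * (r0 + 1))).card ≤ q + 1 := by
      refine Finset.card_image_le.trans ?_
      rw [Finset.card_range]
    rw [Finset.card_range]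
    omega
  · intro a ha
    rcases Finset.mem_union.1 ha with h | h
    · have := Finset.mem_range.1 h
      omega
    · obtain ⟨i, hi, rfl⟩ := Finset.mem_image.1 h
      have h5 : i * (r0 + 1) ≤ q * (r0 + 1) := Nat.mul_le_mul_right _ (by
        have := Finset.mem_range.1 hi
        omega)
      omega
  · intro x hx1 hxn
    rcases Nat.lt_or_ge x (r0 + 2) with hxs | hxs
    · exact ⟨0, Finset.mem_union_left _ (Finset.mem_range.2 (by omega)), x,
        Finset.mem_union_left _ (Finset.mem_range.2 hxs), by omega, by omega⟩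
    have hspos : 0 < r0 + 1 := by omega
    have hdm : x / (r0 + 1) * (r0 + 1) + x % (r0 + 1) = x := Nat.div_add_mod' x (r0 + 1)
    have hr : x % (r0 + 1) < r0 + 1 := Nat.mod_lt _ hspos
    by_cases hlt : x / (r0 + 1) ≤ q
    · refine ⟨x % (r0 + 1), Finset.mem_union_left _ (Finset.mem_range.2 (by omega)),
        x / (r0 + 1) * (r0 + 1), Finset.mem_union_right _ (Finset.mem_image.2
          ⟨x / (r0 + 1), Finset.mem_range.2 (by omega), rfl⟩), ?_, by omega⟩
      have h10 : 1 ≤ x / (r0 + 1) := by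
        rw [Nat.one_le_div_iff hspos]; omega
      have h11 : r0 + 1 ≤ x / (r0 + 1) * (r0 + 1) := Nat.le_mul_of_pos_left _ h10
      omega
    · -- `x = n`, a multiple of `r0 + 1`
      push Not at hlt
      have h5 : (q + 1) * (r0 + 1) ≤ x := by
        have h6 : (q + 1) * (r0 + 1) ≤ x / (r0 + 1) * (r0 + 1) := Nat.mul_le_mul_right _ hlt
        omega
      have h7 : n - 1 < (q + 1) * (r0 + 1) := by
        rw [hq]
        exact Nat.lt_mul_of_div_lt (Nat.lt_succ_self _) hspos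
      have h8 : (q + 1) * (r0 + 1) = x := by omega
      have h9 : (q + 1) * (r0 + 1) = q * (r0 + 1) + (r0 + 1) := by ring
      refine ⟨r0 + 1, Finset.mem_union_left _ (Finset.mem_range.2 (by omega)),
        q * (r0 + 1), Finset.mem_union_right _ (Finset.mem_image.2
          ⟨q, Finset.mem_range.2 (by omega), rfl⟩), ?_, by omega⟩
      omega

lemma two_full (n m : ℕ) [NeZero n] (hn : 9 ≤ n) (hm : 2 * Nat.sqrt n + 3 ≤ m) (hmn : m ≤ n) :
    n ≤ nuHat (ZMod n) m 2 := by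
  obtain ⟨A, hA1, hA2, hA3⟩ := thin n hn
  set B : Finset (ZMod n) := A.image (fun a : ℕ => (a : ZMod n)) with hB
  have hBc : B.card ≤ 2 * Nat.sqrt n + 3 := Finset.card_image_le.trans (by omega)
  have hval : ∀ a b : ℕ, a < n → b < n → ((a : ℕ) : ZMod n) = (b : ZMod n) → a = b := by
    intro a b ha hb hab
    have := congrArg ZMod.val hab
    rwa [ZMod.val_cast_of_lt ha, ZMod.val_cast_of_lt hb] at this
  have h1 : rSum B 2 = Finset.univ := by
    refine Finset.eq_univ_iff_forall.2 fun z => ?_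
    obtain ⟨x, hx1, hx2, hx3⟩ : ∃ x : ℕ, 1 ≤ x ∧ x ≤ n ∧ ((x : ℕ) : ZMod n) = z := by
      by_cases hz : z.val = 0
      · refine ⟨n, by omega, le_rfl, ?_⟩
        rw [ZMod.natCast_self]
        exact ((ZMod.val_eq_zero z).1 hz).symm
      · exact ⟨z.val, Nat.one_le_iff_ne_zero.2 hz, (ZMod.val_lt z).le, ZMod.natCast_zmod_val z⟩
    obtain ⟨a, ha, b, hb, hab, habx⟩ := hA3 x hx1 hx2
    have hne : (a : ZMod n) ≠ (b : ZMod n) := by
      intro h
      have := hval a b (hA2 a ha) (hA2 b hb) h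
      omega
    refine Finset.mem_image.2 ⟨{(a : ZMod n), (b : ZMod n)}, Finset.mem_powersetCard.2 ⟨?_, ?_⟩, ?_⟩
    · intro y hy
      rcases Finset.mem_insert.1 hy with rfl | hy
      · exact Finset.mem_image_of_mem _ ha
      · rw [Finset.mem_singleton.1 hy]
        exact Finset.mem_image_of_mem _ hb
    · exact Finset.card_pair hne
    · rw [Finset.sum_pair hne, ← hx3, ← habx, Nat.cast_add]
  have h2 : n ≤ nuHat (ZMod n) B.card 2 := by
    have := card_rSum_le B 2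
    rwa [h1, Finset.card_univ, ZMod.card] at this
  have h3 : 2 ≤ B.card := by
    have h4 : (rSum B 2).Nonempty := by rw [h1]; exact Finset.univ_nonempty
    obtain ⟨z, hz⟩ := h4
    obtain ⟨I, hI, -⟩ := Finset.mem_image.1 hz
    rw [Finset.mem_powersetCard] at hI
    rw [← hI.2]
    exact Finset.card_le_card hI.1
  exact h2.trans (nuHat_mono le_rfl (by omega) (by omega) h3 (by rw [ZMod.card]; exact hmn))

variable {G : Type*} [AddCommGroup G] [Fintype G] [DecidableEq G]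

/-- the main case -/
lemma core_full (M H k1 : ℕ) (hHM : H ≤ M) (hM : M ≤ Fintype.card G) (hk1 : k1 < Fintype.card G)
    (hC : M.choose H < (k1 + 2).choose 3) (hMs : (M + 1).choose 2 ≤ Fintype.card G)
    (hlog : Real.log (Fintype.card G : ℝ) <
      (M.choose H : ℝ) / (Fintype.card G : ℝ) -
      (k1 : ℝ) / ((Fintype.card G : ℝ) - (k1 : ℝ)) *
        ((M.choose H : ℝ) / (Fintype.card G : ℝ)) * ((k1 : ℝ) + 1)) :
    Fintype.card G ≤ nuHat G M H := by
  have hn := card_pos_real (G := G)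
  rcases bound_loss (G := G) M H k1 hHM hM hk1 hC with hs | hb
  · obtain ⟨k, hk0, hkM, hkc, -⟩ := hs
    exfalso
    have h3 : (k + 1).choose 2 ≤ (M + 1).choose 2 := Nat.choose_le_choose _ (by omega)
    omega
  · have h1 : Real.exp (-((M.choose H : ℝ) / (Fintype.card G : ℝ)) +
        (k1 : ℝ) / ((Fintype.card G : ℝ) - (k1 : ℝ)) *
        ((M.choose H : ℝ) / (Fintype.card G : ℝ)) * ((k1 : ℝ) + 1)) <
        1 / (Fintype.card G : ℝ) := by
      have h2 : 1 / (Fintype.card G : ℝ) = Real.exp (-Real.log (Fintype.card G : ℝ)) := by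
        rw [Real.exp_neg, Real.exp_log hn, one_div]
      rw [h2, Real.exp_lt_exp]
      linarith
    have h3 : (Fintype.card G : ℝ) * (1 - 1 / (Fintype.card G : ℝ)) < (nuHat G M H : ℝ) := by
      refine lt_of_lt_of_le ?_ hb
      exact mul_lt_mul_of_pos_left (by linarith) hn
    have h4 : (Fintype.card G : ℝ) * (1 - 1 / (Fintype.card G : ℝ)) =
        (Fintype.card G : ℝ) - 1 := by
      field_simp
    rw [h4] at h3
    have h5 : (Fintype.card G : ℝ) < (nuHat G M H : ℝ) + 1 := by linarith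
    have h6 : Fintype.card G < nuHat G M H + 1 := by exact_mod_cast h5
    omega

/-- **Everything is covered.** -/
theorem full (δ : ℝ) (hδ : 0 < δ) : ∃ N : ℕ, ∀ (n : ℕ) [NeZero n], N ≤ n → ∀ m h : ℕ,
    1 ≤ h → h ≤ m → m ≤ n → (1 + δ) * ((n : ℝ) * Real.log (n : ℝ)) ≤ (m.choose h : ℝ) →
    nuHat (ZMod n) m h = n := by
  obtain ⟨A, hA⟩ : ∃ A : ℝ, A = 12 * (9 + 8 * δ) := ⟨_, rfl⟩
  have hA1 : 108 ≤ A := by rw [hA]; linarith
  obtain ⟨T, hT⟩ : ∃ T : ℝ, T = 32 * A ^ 2 * (1 + δ) / δ + 18 * A ^ 2 + 4 * A + 1 + Real.exp 1 :=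
    ⟨_, rfl⟩
  have hA2 : 0 ≤ A ^ 2 := sq_nonneg A
  have hq0 : 0 ≤ 32 * A ^ 2 * (1 + δ) / δ := by positivity
  have he1 : 0 < Real.exp 1 := Real.exp_pos 1
  have hT1 : 1 ≤ T := by rw [hT]; linarith
  obtain ⟨N, hN⟩ := exists_nat_ge (T ^ 8)
  refine ⟨N + 9, fun n _ hnN m h hh hhm hmn hC => ?_⟩
  have hc : Fintype.card (ZMod n) = n := ZMod.card n
  refine le_antisymm ((nuHat_le_card m h).trans hc.le) ?_
  have hn9 : 9 ≤ n := by omega
  have hnpos : (0 : ℝ) < (n : ℝ) := by exact_mod_cast (show 0 < n by omega)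
  have hnT : T ^ 8 ≤ (n : ℝ) := hN.trans (by exact_mod_cast (show N ≤ n by omega))
  -- `n = t ^ 8`
  obtain ⟨t, ht0, ht8⟩ : ∃ t : ℝ, 0 < t ∧ t ^ 8 = (n : ℝ) := by
    refine ⟨(n : ℝ) ^ (((8 : ℕ) : ℝ)⁻¹), Real.rpow_pos_of_pos hnpos _, ?_⟩
    exact Real.rpow_inv_natCast_pow hnpos.le (by norm_num)
  have htT : T ≤ t := by
    have h1 : T ^ 8 ≤ t ^ 8 := by rw [ht8]; exact hnT
    exact le_of_pow_le_pow_left₀ (by norm_num) ht0.le h1
  have ht1 : 1 ≤ t := hT1.trans htT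
  have hlogt : Real.log (n : ℝ) = 8 * Real.log t := by
    rw [← ht8, Real.log_pow]; norm_num
  have hlog8 : 8 ≤ Real.log (n : ℝ) := by
    have h1 : Real.exp 1 ≤ t := by rw [hT] at htT; linarith
    have h2 : 1 ≤ Real.log t := by
      rw [Real.le_log_iff_exp_le ht0]; exact h1
    linarith
  have hlogle : Real.log (n : ℝ) ≤ 8 * t := by
    have h1 := Real.log_le_sub_one_of_pos ht0
    linarith
  have htt : t ≤ t ^ 2 := by nlinarith
  have ht2T : T ≤ t ^ 2 := htT.trans htt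
  -- the level
  obtain ⟨L, hL⟩ : ∃ L : ℕ, L = ⌈(1 + δ) * ((n : ℝ) * Real.log (n : ℝ))⌉₊ := ⟨_, rfl⟩
  have hLC : L ≤ m.choose h := by rw [hL]; exact Nat.ceil_le.2 hC
  have hLge : (1 + δ) * ((n : ℝ) * Real.log (n : ℝ)) ≤ (L : ℝ) := by rw [hL]; exact Nat.le_ceil _
  have hnlog : 8 * (n : ℝ) ≤ (n : ℝ) * Real.log (n : ℝ) := by
    have := mul_le_mul_of_nonneg_left hlog8 hnpos.le
    linarith
  have hnlog0 : 0 ≤ (n : ℝ) * Real.log (n : ℝ) := by linarith
  have hL8 : 8 * n ≤ L := by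
    have h1 : 8 * (n : ℝ) ≤ (L : ℝ) := by
      have h2 : 0 ≤ δ * ((n : ℝ) * Real.log (n : ℝ)) := mul_nonneg hδ.le hnlog0
      linarith
    exact_mod_cast h1
  have hLle : (L : ℝ) ≤ (9 + 8 * δ) * t ^ 9 := by
    have h1 : (L : ℝ) < (1 + δ) * ((n : ℝ) * Real.log (n : ℝ)) + 1 := by
      rw [hL]
      exact Nat.ceil_lt_add_one (mul_nonneg (by linarith) hnlog0)
    have h2 : (n : ℝ) * Real.log (n : ℝ) ≤ 8 * t ^ 9 := by
      calc (n : ℝ) * Real.log (n : ℝ) ≤ (n : ℝ) * (8 * t) :=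
            mul_le_mul_of_nonneg_left hlogle hnpos.le
        _ = 8 * t ^ 9 := by rw [← ht8]; ring
    have h3 : (1 : ℝ) ≤ t ^ 9 := one_le_pow₀ ht1
    have h4 : (1 + δ) * ((n : ℝ) * Real.log (n : ℝ)) ≤ (1 + δ) * (8 * t ^ 9) :=
      mul_le_mul_of_nonneg_left h2 (by linarith)
    linarith
  obtain ⟨M, H, hHM, hMm, hLM, hML, hν⟩ := reduce (G := ZMod n) L (by omega) h hh hhm
    (by rw [hc]; exact hmn) hLC
  refine le_trans ?_ hν
  have hMn : M ≤ n := by omega
  -- small cases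
  rcases Nat.lt_or_ge H 2 with hH | hH
  · exfalso
    rcases Nat.lt_or_ge H 1 with h0 | h0
    · have : H = 0 := by omega
      rw [this, Nat.choose_zero_right] at hLM
      omega
    · have : H = 1 := by omega
      rw [this, Nat.choose_one_right] at hLM
      omega
  rcases Nat.lt_or_ge M (H + 2) with hMH | hMH
  · exfalso
    rcases Nat.lt_or_ge M (H + 1) with h0 | h0
    · have : M = H := by omega
      rw [this, Nat.choose_self] at hLM
      omega
    · have : M = H + 1 := by omega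
      rw [this, Nat.choose_succ_self_right] at hLM
      omega
  -- `H = 2` or `M - 2`
  have htwo : 8 * n ≤ M.choose 2 → n ≤ nuHat (ZMod n) M 2 := by
    intro h1
    refine two_full n M hn9 ?_ hMn
    have h2 : 2 * M.choose 2 ≤ M * M := by
      obtain ⟨d, hd⟩ := Nat.exists_eq_add_of_le' (show 1 ≤ M by omega)
      rw [hd, two_mul_choose_two]
      exact Nat.mul_le_mul_left _ (by omega)
    have h3 : Nat.sqrt n * Nat.sqrt n ≤ n := Nat.sqrt_le n
    have h4 : 3 ≤ Nat.sqrt n := by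
      rw [Nat.le_sqrt]; omega
    by_contra hcon
    push Not at hcon
    have h5 : M ≤ 3 * Nat.sqrt n := by omega
    have h6 : M * M ≤ (3 * Nat.sqrt n) * (3 * Nat.sqrt n) := Nat.mul_le_mul h5 h5
    have h7 : (3 * Nat.sqrt n) * (3 * Nat.sqrt n) = 9 * (Nat.sqrt n * Nat.sqrt n) := by ring
    omega
  rcases hH.eq_or_lt with hH2 | hH3
  · subst hH2
    exact htwo (by omega)
  rcases hMH.eq_or_lt with hM2 | hM3
  · have h1 : H = M - 2 := by omega
    have h2 : M.choose H = M.choose 2 := by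
      rw [h1]; exact Nat.choose_symm (by omega)
    rw [h1, nuHat_symm (by omega)]
    exact htwo (by omega)
  -- the main case
  obtain ⟨k1, hk1⟩ : ∃ k1 : ℕ, k1 = ⌈A * t ^ 3⌉₊ := ⟨_, rfl⟩
  have ht3 : (1 : ℝ) ≤ t ^ 3 := one_le_pow₀ ht1
  have hAt : 108 ≤ A * t ^ 3 := by nlinarith
  have hk1ge : A * t ^ 3 ≤ (k1 : ℝ) := by rw [hk1]; exact Nat.le_ceil _
  have hk1le : (k1 : ℝ) ≤ 2 * (A * t ^ 3) := by
    have h1 : (k1 : ℝ) < A * t ^ 3 + 1 := by
      rw [hk1]; exact Nat.ceil_lt_add_one (by linarith)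
    linarith
  have hk1pos : (108 : ℝ) ≤ (k1 : ℝ) := hAt.trans hk1ge
  have hk1sq : (k1 : ℝ) ^ 2 ≤ 4 * A ^ 2 * t ^ 6 := by
    calc (k1 : ℝ) ^ 2 ≤ (2 * (A * t ^ 3)) ^ 2 := pow_le_pow_left₀ (by linarith) hk1le 2
      _ = 4 * A ^ 2 * t ^ 6 := by ring
  have ht6 : 0 < t ^ 6 := by positivity
  have hk1cube : 12 * L ≤ k1 ^ 3 := by
    have h1 : 12 * (L : ℝ) ≤ (k1 : ℝ) ^ 3 := by
      have h2 : (A * t ^ 3) ^ 3 ≤ (k1 : ℝ) ^ 3 := pow_le_pow_left₀ (by linarith) hk1ge 3
      have h3 : (A * t ^ 3) ^ 3 = A ^ 3 * t ^ 9 := by ring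
      have h4 : A ≤ A ^ 3 := by nlinarith
      have h5 : A * t ^ 9 ≤ A ^ 3 * t ^ 9 := mul_le_mul_of_nonneg_right h4 (by positivity)
      have h6 : 12 * ((9 + 8 * δ) * t ^ 9) = A * t ^ 9 := by rw [hA]; ring
      linarith
    exact_mod_cast h1
  have hchoose : M.choose H < (k1 + 2).choose 3 := by
    have := six_choose k1
    omega
  have hMk : M ≤ k1 + 1 := by
    by_contra hcon
    have h1 : (k1 + 2).choose 3 ≤ M.choose 3 := Nat.choose_le_choose _ (by omega)
    have h2 := choose_three_le M H (by omega) (by omega)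
    omega
  have hbig : 18 * A ^ 2 * t ^ 6 ≤ (n : ℝ) := by
    have h1 : 18 * A ^ 2 ≤ t ^ 2 := by
      refine le_trans ?_ ht2T
      rw [hT]; linarith
    calc 18 * A ^ 2 * t ^ 6 ≤ t ^ 2 * t ^ 6 := mul_le_mul_of_nonneg_right h1 ht6.le
      _ = (n : ℝ) := by rw [← ht8]; ring
  have hMs : (M + 1).choose 2 ≤ n := by
    have h1 : (M + 1).choose 2 ≤ (k1 + 2).choose 2 := Nat.choose_le_choose _ (by omega)
    have h2 : 2 * (k1 + 2).choose 2 = (k1 + 2) * (k1 + 1) := two_mul_choose_two (k1 + 1)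
    have h3 : (((k1 + 2) * (k1 + 1) : ℕ) : ℝ) ≤ 2 * (n : ℝ) := by
      push_cast
      nlinarith
    have h4 : (k1 + 2) * (k1 + 1) ≤ 2 * n := by exact_mod_cast h3
    omega
  have hk1half : 4 * (k1 : ℝ) ≤ (n : ℝ) := by nlinarith
  have hk1n : k1 < n := by
    have h1 : (k1 : ℝ) < (n : ℝ) := by linarith
    exact_mod_cast h1
  have := core_full (G := ZMod n) M H k1 hHM (by rw [hc]; exact hMn) (by rw [hc]; exact hk1n)
    hchoose (by rw [hc]; exact hMs) (by
      rw [hc]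
      set κ := (M.choose H : ℝ) / (n : ℝ) with hκ
      have hκlog : (1 + δ) * Real.log (n : ℝ) ≤ κ := by
        rw [hκ, le_div_iff₀ hnpos]
        have h1 : (L : ℝ) ≤ (M.choose H : ℝ) := by exact_mod_cast hLM
        linarith
      have hpos : 0 < (n : ℝ) - (k1 : ℝ) := by linarith
      -- the loss
      obtain ⟨lam, hlam⟩ : ∃ lam : ℝ, lam = (k1 : ℝ) / ((n : ℝ) - (k1 : ℝ)) * ((k1 : ℝ) + 1) :=
        ⟨_, rfl⟩
      have hlam0 : 0 ≤ lam := by
        rw [hlam]; exact mul_nonneg (div_nonneg (by linarith) hpos.le) (by linarith)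
      have hlamle : lam * (2 * (1 + δ)) ≤ δ := by
        have h1 : lam * ((n : ℝ) - (k1 : ℝ)) = (k1 : ℝ) * ((k1 : ℝ) + 1) := by
          rw [hlam]; field_simp
        have h2 : lam * (n : ℝ) ≤ 16 * A ^ 2 * t ^ 6 := by
          have h3 : lam * (4 * (k1 : ℝ)) ≤ lam * (n : ℝ) :=
            mul_le_mul_of_nonneg_left hk1half hlam0
          have h4 : (k1 : ℝ) * ((k1 : ℝ) + 1) ≤ 2 * (k1 : ℝ) ^ 2 := by nlinarith
          have h5 : lam * ((n : ℝ) - (k1 : ℝ)) = lam * (n : ℝ) - lam * (k1 : ℝ) := by ring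
          linarith
        have h6 : 32 * A ^ 2 * (1 + δ) ≤ δ * t ^ 2 := by
          have h7 : 32 * A ^ 2 * (1 + δ) / δ ≤ t ^ 2 := by
            refine le_trans ?_ ht2T
            rw [hT]; linarith
          rw [div_le_iff₀ hδ] at h7
          linarith
        have h8 : lam * (2 * (1 + δ)) * (n : ℝ) ≤ δ * (n : ℝ) := by
          calc lam * (2 * (1 + δ)) * (n : ℝ) = (lam * (n : ℝ)) * (2 * (1 + δ)) := by ring
            _ ≤ (16 * A ^ 2 * t ^ 6) * (2 * (1 + δ)) :=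
                mul_le_mul_of_nonneg_right h2 (by linarith)
            _ = (32 * A ^ 2 * (1 + δ)) * t ^ 6 := by ring
            _ ≤ (δ * t ^ 2) * t ^ 6 := mul_le_mul_of_nonneg_right h6 ht6.le
            _ = δ * (n : ℝ) := by rw [← ht8]; ring
        exact le_of_mul_le_mul_right h8 hnpos
      have hlog0 : 0 < Real.log (n : ℝ) := by linarith
      have hlam1 : lam ≤ 1 / 2 := by
        have : lam * (2 * (1 + δ)) = 2 * lam + 2 * lam * δ := by ring
        nlinarith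
      have e1 : κ - (k1 : ℝ) / ((n : ℝ) - (k1 : ℝ)) * κ * ((k1 : ℝ) + 1) = κ * (1 - lam) := by
        rw [hlam]; ring
      rw [e1]
      have h9 : (1 + δ) * Real.log (n : ℝ) * (1 - lam) ≤ κ * (1 - lam) :=
        mul_le_mul_of_nonneg_right hκlog (by linarith)
      refine lt_of_lt_of_le ?_ h9
      have h10 : (1 + δ) * (1 - lam) ≥ 1 + δ / 2 := by linarith
      have h11 : Real.log (n : ℝ) * (1 + δ / 2) ≤ Real.log (n : ℝ) * ((1 + δ) * (1 - lam)) :=
        mul_le_mul_of_nonneg_left h10 hlog0.le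
      have h12 : 0 < Real.log (n : ℝ) * (δ / 2) := by positivity
      linarith)
  rwa [hc] at this

end Pool.Agent.MP_5949a1
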