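import Pool.Agent.Lib.MP_5949a1_co_h34.Final

/-!
# The chain beyond `n`: steps where the averaging inequality loses a small factor
-/

set_option autoImplicit false
set_option linter.unusedSectionVars false

namespace Pool.Agent.MP_5949a1

open Finset

lemma choose_three_le : ∀ (N j : ℕ), 3 ≤ j → j + 3 ≤ N → N.choose 3 ≤ N.choose j := by
  intro N
  induction N with
  | zero => intro j h1 h2; omega
  | succ N ih =>
    intro j h1 h2
    rcases h1.eq_or_lt with h3 | h3
    · subst h3; exact le_rfl
    rcases h2.eq_or_lt with h4 | h4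
    · have h5 : (N + 1).choose j = (N + 1).choose 3 := by
        have : j = N + 1 - 3 := by omega
        rw [this]
        exact Nat.choose_symm (by omega)
      rw [h5]
    · have h5 := ih j h1 (by omega)
      have h6 := ih (j - 1) (by omega) (by omega)
      obtain ⟨i, rfl⟩ := Nat.exists_eq_add_of_le' (show 1 ≤ j by omega)
      rw [Nat.add_sub_cancel] at h6
      have h7 : (N + 1).choose (i + 1) = N.choose i + N.choose (i + 1) := Nat.choose_succ_succ _ _
      have h8 : (N + 1).choose 3 = N.choose 2 + N.choose 3 := Nat.choose_succ_succ _ _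
      have h9 : N.choose 2 * (N - 2) = N.choose 3 * 3 := (Nat.choose_succ_right_eq N 2).symm
      have h10 : N.choose 2 * 3 ≤ N.choose 2 * (N - 2) := Nat.mul_le_mul_left _ (by omega)
      omega

/-- Vandermonde in the form needed -/
lemma vander (H k r : ℕ) :
    ∑ j ∈ Finset.range (H + 1), (k.choose j) * wt H r j = (k + r).choose H := by
  rw [Nat.add_choose_eq, Finset.Nat.sum_antidiagonal_eq_sum_range_succ
    (fun i j => k.choose i * r.choose j) H]
  refine Finset.sum_congr rfl fun j hj => ?_
  have := Finset.mem_range.1 hj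
  rw [wt, if_pos (by omega)]

variable {G : Type*} [AddCommGroup G] [Fintype G] [DecidableEq G]

/-- the condition of the averaging inequality -/
def Cond (A : Finset G) (i : ℕ) : Prop :=
  A.card * (rSum A (i + 1)).card + Fintype.card G * i ≤ Fintype.card G * A.card ∨
      A.card * (rSum A i).card ≤ (i + 1) * Fintype.card G

/-- one step with a loss on the set `B` -/
lemma step_loss (A : Finset G) (hA : A.card < Fintype.card G) (H r : ℕ) (B : Finset ℕ) (θ : ℝ)
    (hθ : (A.card : ℝ) / ((Fintype.card G : ℝ) - (A.card : ℝ)) ≤ θ)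
    (hc : ∀ i : ℕ, i + 1 ≤ H → wt H r (i + 1) ≠ 0 → i + 1 ∉ B → Cond A i) :
    ∃ a, a ∉ A ∧ ∏ j ∈ Finset.range (H + 1), unc (insert a A) j ^ wt H r j ≤
      (∏ j ∈ Finset.range (H + 1), unc A j ^ wt H (r + 1) j) *
        Real.exp (θ * ∑ j ∈ Finset.range (H + 1), if j ∈ B then (wt H r j : ℝ) else 0) := by
  have hne : (Aᶜ).Nonempty := by
    obtain ⟨x, hx⟩ := exists_notMem hA
    exact ⟨x, Finset.mem_compl.2 hx⟩
  have hn := card_pos_real (G := G)
  have hA' : (A.card : ℝ) < (Fintype.card G : ℝ) := by exact_mod_cast hA
  have hexp : ∀ j : ℕ, (1 : ℝ) ≤ if j ∈ B then Real.exp θ else 1 := by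
    intro j
    have hθ0 : 0 ≤ θ := le_trans (div_nonneg (Nat.cast_nonneg _) (by linarith)) hθ
    split_ifs
    · exact Real.one_le_exp hθ0
    · exact le_rfl
  obtain ⟨a, ha, hle⟩ := exists_prod_le Aᶜ hne (Finset.range (H + 1))
    (fun j a => unc (insert a A) j)
    (fun j => (match j with
      | 0 => unc A 0
      | (i + 1) => unc A (i + 1) * unc A i) * (if j ∈ B then Real.exp θ else 1))
    (wt H r)
    (fun j _ a _ => unc_nonneg _ _)
    (by
      intro j _
      refine mul_nonneg ?_ (le_trans zero_le_one (hexp j))
      rcases j with _ | i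
      · exact unc_nonneg _ _
      · exact mul_nonneg (unc_nonneg _ _) (unc_nonneg _ _))
    (by
      intro j hj hw
      rcases j with _ | i
      · have h1 : ∀ a ∈ Aᶜ, unc (insert a A) 0 = unc A 0 := by
          intro a _
          rw [unc_zero, unc_zero]
        rw [Finset.sum_congr rfl h1, Finset.sum_const, nsmul_eq_mul]
        refine mul_le_mul_of_nonneg_left ?_ (Nat.cast_nonneg _)
        exact le_mul_of_one_le_right (unc_nonneg _ _) (hexp 0)
      · by_cases hB : i + 1 ∈ B
        · have h1 := sum_unc_le_weak A i
          refine h1.trans ?_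
          have hAc : ((Aᶜ).card : ℝ) = (Fintype.card G : ℝ) - (A.card : ℝ) := compl_card_real A
          rw [hAc]
          simp only [if_pos hB]
          have hpos : 0 < (Fintype.card G : ℝ) - (A.card : ℝ) := by linarith
          have h2 : (Fintype.card G : ℝ) ≤ ((Fintype.card G : ℝ) - (A.card : ℝ)) * Real.exp θ := by
            have h3 : θ + 1 ≤ Real.exp θ := Real.add_one_le_exp θ
            have h4 : (A.card : ℝ) ≤ θ * ((Fintype.card G : ℝ) - (A.card : ℝ)) := by
              rwa [div_le_iff₀ hpos] at hθ
            have h5 : ((Fintype.card G : ℝ) - (A.card : ℝ)) * (θ + 1) ≤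
                ((Fintype.card G : ℝ) - (A.card : ℝ)) * Real.exp θ :=
              mul_le_mul_of_nonneg_left h3 hpos.le
            linarith
          have h6 : 0 ≤ unc A (i + 1) * unc A i := mul_nonneg (unc_nonneg _ _) (unc_nonneg _ _)
          have h7 := mul_le_mul_of_nonneg_right h2 h6
          refine h7.trans (le_of_eq ?_)
          ring
        · simp only [if_neg hB, mul_one]
          refine sum_unc_le A i (hc i ?_ hw hB)
          have := Finset.mem_range.1 hj
          omega)
  refine ⟨a, Finset.mem_compl.1 ha, hle.trans (le_of_eq ?_)⟩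
  have e0 : ∏ j ∈ Finset.range (H + 1), (if j ∈ B then Real.exp θ else 1) ^ wt H r j =
      Real.exp (θ * ∑ j ∈ Finset.range (H + 1), if j ∈ B then (wt H r j : ℝ) else 0) := by
    rw [Finset.mul_sum, Real.exp_sum]
    refine Finset.prod_congr rfl fun j _ => ?_
    split_ifs
    · rw [← Real.exp_nat_mul, mul_comm]
    · rw [one_pow, mul_zero, Real.exp_zero]
  rw [← e0]
  simp only [mul_pow]
  rw [Finset.prod_mul_distrib]
  congr 1
  rw [Finset.prod_range_succ' (n := H)]
  have e1 : ∏ j ∈ Finset.range (H + 1), unc A j ^ wt H (r + 1) j =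
      (∏ j ∈ Finset.range (H + 1), unc A j ^ wt H r j) *
      (∏ j ∈ Finset.range (H + 1), unc A j ^ wt H r (j + 1)) := by
    rw [← Finset.prod_mul_distrib]
    refine Finset.prod_congr rfl fun j hj => ?_
    rw [wt_succ (by have := Finset.mem_range.1 hj; omega), pow_add]
  rw [e1, Finset.prod_range_succ' (fun j => unc A j ^ wt H r j) H,
    Finset.prod_range_succ (fun j => unc A j ^ wt H r (j + 1)) H]
  have e2 : wt H r (H + 1) = 0 := by
    rw [wt, if_neg (by omega)]
  rw [e2, pow_zero, mul_one]
  simp only [mul_pow]
  rw [Finset.prod_mul_distrib]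
  ring

/-- almost everything is covered -/
def Stop (G : Type*) [AddCommGroup G] [Fintype G] [DecidableEq G] (M H : ℕ) : Prop :=
  ∃ k : ℕ, 1 ≤ k ∧ k ≤ M ∧ Fintype.card G < (k + 1).choose 2 ∧
    Fintype.card G * (k - 1) ≤ k * nuHat G M H

/-- the chain with losses -/
lemma chain_loss (H M k1 : ℕ) (hHM : H ≤ M) (hM : M ≤ Fintype.card G) (hk1 : k1 < Fintype.card G)
    (hC : M.choose H < (k1 + 2).choose 3) : ∀ R : ℕ, R ≤ M →
    Stop G M H ∨ ∃ A : Finset G, A.card = R ∧
      ∏ j ∈ Finset.range (H + 1), unc A j ^ wt H (M - R) j ≤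
      (1 - 1 / (Fintype.card G : ℝ)) ^ M.choose H *
      Real.exp ((k1 : ℝ) / ((Fintype.card G : ℝ) - (k1 : ℝ)) *
        ((M.choose H : ℝ) / (Fintype.card G : ℝ)) * ((min R (k1 + 1) : ℕ) : ℝ)) := by
  intro R
  have hn := card_pos_real (G := G)
  have hk1' : (k1 : ℝ) < (Fintype.card G : ℝ) := by exact_mod_cast hk1
  induction R with
  | zero =>
    intro _
    right
    refine ⟨∅, rfl, le_of_eq ?_⟩
    rw [Finset.prod_range_succ' (n := H)]
    have e1 : ∏ k ∈ Finset.range H, unc (∅ : Finset G) (k + 1) ^ wt H (M - 0) (k + 1) = 1 := by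
      refine Finset.prod_eq_one fun k _ => ?_
      rw [unc_empty_succ, one_pow]
    rw [e1, one_mul, unc_zero, wt, if_pos (Nat.zero_le _), Nat.sub_zero, Nat.sub_zero]
    simp
  | succ R ih =>
    intro hR
    rcases ih (by omega) with hs | ⟨A, hA, hle⟩
    · exact Or.inl hs
    have hAn : A.card < Fintype.card G := by omega
    have e : M - (R + 1) + 1 = M - R := by omega
    by_cases hB : ∃ i : ℕ, i + 1 ≤ H ∧ wt H (M - (R + 1)) (i + 1) ≠ 0 ∧ ¬ Cond A i
    · obtain ⟨i, hi1, hi2, hi3⟩ := hB
      have hbig : Fintype.card G < (R + 1).choose (i + 1) := by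
        by_contra hcon
        push Not at hcon
        exact hi3 (cond_of_choose A i (by rw [hA]; exact hcon))
      have hw : H - (i + 1) ≤ M - (R + 1) := by
        by_contra hcon
        rw [wt, if_pos hi1] at hi2
        exact hi2 (Nat.choose_eq_zero_of_lt (by omega))
      have hiR : i + 1 ≤ R := by
        by_contra hcon
        rcases Nat.lt_or_ge (R + 1) (i + 1) with h1 | h1
        · rw [Nat.choose_eq_zero_of_lt h1] at hbig; omega
        · have h2 : i + 1 = R + 1 := by omega
          rw [h2, Nat.choose_self] at hbig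
          omega
      have hi0 : 1 ≤ i := by
        by_contra hcon
        have h2 : i = 0 := by omega
        rw [h2, Nat.choose_one_right] at hbig
        omega
      have hiR2 : i + 2 ≤ R := by
        by_contra hcon
        have h2 : i + 1 = R := by omega
        rw [h2, Nat.choose_succ_self_right] at hbig
        omega
      have hi3' := hi3
      unfold Cond at hi3'
      push Not at hi3'
      obtain ⟨hc1, hc2⟩ := hi3'
      rw [hA] at hc1 hc2
      have hs1 : (rSum A (i + 1)).card ≤ nuHat G M H := by
        have h3 := card_rSum_le A (i + 1)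
        rw [hA] at h3
        exact h3.trans (nuHat_mono hi1 hHM (by omega) (by omega) hM)
      have hs0 : (rSum A i).card ≤ nuHat G M H := by
        have h3 := card_rSum_le A i
        rw [hA] at h3
        exact h3.trans (nuHat_mono (by omega) hHM (by omega) (by omega) hM)
      rcases hi0.eq_or_lt with h0 | hi4
      · -- `i = 1`
        left
        refine ⟨R, by omega, by omega, ?_, ?_⟩
        · rw [← h0] at hbig; exact hbig
        · have h5 : R * (rSum A (i + 1)).card ≤ R * nuHat G M H := Nat.mul_le_mul_left _ hs1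
          have h6 : Fintype.card G * i = Fintype.card G := by rw [← h0, mul_one]
          have h7 : Fintype.card G * (R - 1) + Fintype.card G = Fintype.card G * R := by
            obtain ⟨d, hd⟩ := Nat.exists_eq_add_of_le' (show 1 ≤ R by omega)
            rw [hd, Nat.add_sub_cancel]; ring
          omega
      rcases hiR2.eq_or_lt with h0 | hi5
      · -- `i + 2 = R`
        left
        refine ⟨R, by omega, by omega, ?_, ?_⟩
        · have h5 : (R + 1).choose (i + 1) = (R + 1).choose 2 := by
            have : i + 1 = R + 1 - 2 := by omega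
            rw [this]
            exact Nat.choose_symm (by omega)
          rw [h5] at hbig; exact hbig
        · have h5 : R * (rSum A i).card ≤ R * nuHat G M H := Nat.mul_le_mul_left _ hs0
          have h7 : Fintype.card G * (R - 1) = (i + 1) * Fintype.card G := by
            have : R - 1 = i + 1 := by omega
            rw [this, mul_comm]
          omega
      · -- the middle range: `R ≤ k1`
        have h5 : (R + 1).choose 3 ≤ (R + 1).choose (i + 1) := choose_three_le _ _ (by omega)
          (by omega)
        have h6 := choose_le_choose_add (a := R + 1) (b := i + 1) (c := M - (R + 1))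
          (d := H - (i + 1)) hw
        rw [show R + 1 + (M - (R + 1)) = M by omega,
          show i + 1 + (H - (i + 1)) = H by omega] at h6
        have hRk : R ≤ k1 := by
          by_contra hcon
          have h7 : (k1 + 2).choose 3 ≤ (R + 1).choose 3 := Nat.choose_le_choose _ (by omega)
          omega
        right
        obtain ⟨a, ha, hle2⟩ := step_loss A hAn H (M - (R + 1))
          ((Finset.range (H + 1)).filter fun j => Fintype.card G < (R + 1).choose j)
          ((k1 : ℝ) / ((Fintype.card G : ℝ) - (k1 : ℝ)))
          (by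
            rw [hA]
            have h8 : (R : ℝ) ≤ (k1 : ℝ) := by exact_mod_cast hRk
            exact div_le_div₀ (Nat.cast_nonneg _) h8 (by linarith) (by linarith))
          (by
            intro i' hi' hw' hB'
            refine cond_of_choose A i' ?_
            by_contra hcon
            push Not at hcon
            rw [hA] at hcon
            exact hB' (Finset.mem_filter.2 ⟨Finset.mem_range.2 (by omega), hcon⟩))
        refine ⟨insert a A, by rw [Finset.card_insert_of_notMem ha, hA], ?_⟩
        rw [e] at hle2
        refine hle2.trans ?_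
        have hmin : min (R + 1) (k1 + 1) = min R (k1 + 1) + 1 := by omega
        rw [hmin]
        have hWbound : (∑ j ∈ Finset.range (H + 1),
            if j ∈ (Finset.range (H + 1)).filter (fun j => Fintype.card G < (R + 1).choose j)
              then (wt H (M - (R + 1)) j : ℝ) else 0) ≤
            (M.choose H : ℝ) / (Fintype.card G : ℝ) := by
          rw [le_div_iff₀ hn]
          have hv := vander H (R + 1) (M - (R + 1))
          rw [show R + 1 + (M - (R + 1)) = M by omega] at hv
          rw [← hv, Nat.cast_sum, Finset.sum_mul]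
          refine Finset.sum_le_sum fun j hj => ?_
          split_ifs with hj2
          · have h8 := (Finset.mem_filter.1 hj2).2
            have h9 : wt H (M - (R + 1)) j * Fintype.card G ≤
                (R + 1).choose j * wt H (M - (R + 1)) j := by
              rw [mul_comm]
              exact Nat.mul_le_mul_right _ h8.le
            exact_mod_cast h9
          · rw [zero_mul]; exact Nat.cast_nonneg _
        set W := ∑ j ∈ Finset.range (H + 1),
            if j ∈ (Finset.range (H + 1)).filter (fun j => Fintype.card G < (R + 1).choose j)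
              then (wt H (M - (R + 1)) j : ℝ) else 0
        have hθ0 : 0 ≤ (k1 : ℝ) / ((Fintype.card G : ℝ) - (k1 : ℝ)) :=
          div_nonneg (Nat.cast_nonneg _) (by linarith)
        have h9 : Real.exp ((k1 : ℝ) / ((Fintype.card G : ℝ) - (k1 : ℝ)) * W) ≤
            Real.exp ((k1 : ℝ) / ((Fintype.card G : ℝ) - (k1 : ℝ)) *
              ((M.choose H : ℝ) / (Fintype.card G : ℝ))) :=
          Real.exp_le_exp.2 (mul_le_mul_of_nonneg_left hWbound hθ0)
        have h10 := mul_le_mul hle h9 (Real.exp_pos _).le
          (mul_nonneg (pow_nonneg one_sub_nonneg _) (Real.exp_pos _).le)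
        refine h10.trans (le_of_eq ?_)
        rw [mul_assoc, ← Real.exp_add]
        congr 2
        push_cast
        ring
    · -- no bad index
      push Not at hB
      right
      obtain ⟨a, ha, hle2⟩ := step_loss A hAn H (M - (R + 1)) ∅
        ((A.card : ℝ) / ((Fintype.card G : ℝ) - (A.card : ℝ))) le_rfl
        (fun i h1 h2 _ => hB i h1 h2)
      refine ⟨insert a A, by rw [Finset.card_insert_of_notMem ha, hA], ?_⟩
      rw [e] at hle2
      simp only [Finset.notMem_empty, if_false, Finset.sum_const_zero, mul_zero, Real.exp_zero,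
        mul_one] at hle2
      refine hle2.trans (hle.trans ?_)
      refine mul_le_mul_of_nonneg_left ?_ (pow_nonneg one_sub_nonneg _)
      refine Real.exp_le_exp.2 ?_
      have hθ0 : 0 ≤ (k1 : ℝ) / ((Fintype.card G : ℝ) - (k1 : ℝ)) :=
        div_nonneg (Nat.cast_nonneg _) (by linarith)
      refine mul_le_mul_of_nonneg_left ?_ (mul_nonneg hθ0 (by positivity))
      have : min R (k1 + 1) ≤ min (R + 1) (k1 + 1) := by omega
      exact_mod_cast this

/-- **Beyond `n`.** -/
theorem bound_loss (M H k1 : ℕ) (hHM : H ≤ M) (hM : M ≤ Fintype.card G)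
    (hk1 : k1 < Fintype.card G) (hC : M.choose H < (k1 + 2).choose 3) :
    Stop G M H ∨ (Fintype.card G : ℝ) * (1 - Real.exp (-((M.choose H : ℝ) / (Fintype.card G : ℝ)) +
      (k1 : ℝ) / ((Fintype.card G : ℝ) - (k1 : ℝ)) *
        ((M.choose H : ℝ) / (Fintype.card G : ℝ)) * ((k1 : ℝ) + 1))) ≤ (nuHat G M H : ℝ) := by
  have hn := card_pos_real (G := G)
  have hk1' : (k1 : ℝ) < (Fintype.card G : ℝ) := by exact_mod_cast hk1
  rcases chain_loss (G := G) H M k1 hHM hM hk1 hC M le_rfl with h | ⟨A, hA, hle⟩
  · exact Or.inl h
  right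
  have e : ∏ j ∈ Finset.range (H + 1), unc A j ^ wt H (M - M) j = unc A H := by
    rw [Finset.prod_range_succ, Nat.sub_self]
    have e1 : ∏ x ∈ Finset.range H, unc A x ^ wt H 0 x = 1 := by
      refine Finset.prod_eq_one fun j hj => ?_
      have hj' := Finset.mem_range.1 hj
      have : wt H 0 j = 0 := by
        rw [wt, if_pos hj'.le]
        exact Nat.choose_eq_zero_of_lt (by omega)
      rw [this, pow_zero]
    rw [e1, one_mul]
    have : wt H 0 H = 1 := by simp [wt]
    rw [this, pow_one]
  rw [e] at hle
  refine le_nuHat_of_unc hA H (hle.trans ?_)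
  rw [Real.exp_add]
  refine mul_le_mul (pow_le_exp _) ?_ (Real.exp_pos _).le (Real.exp_pos _).le
  refine Real.exp_le_exp.2 ?_
  have hθ0 : 0 ≤ (k1 : ℝ) / ((Fintype.card G : ℝ) - (k1 : ℝ)) :=
    div_nonneg (Nat.cast_nonneg _) (by linarith)
  refine mul_le_mul_of_nonneg_left ?_ (mul_nonneg hθ0 (by positivity))
  have : min M (k1 + 1) ≤ k1 + 1 := min_le_right _ _
  exact_mod_cast this

end Pool.Agent.MP_5949a1
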